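import Pool.Agent.H13.SM.Homog

/-!
# The dimension is at most `N`

PROOF.  Choose `l` with `coordFun P l ≠ 0` (if `coordFun P i = 0` for all `i` then the function field is
`ℂ` and `n = 0`; or use `h`).  By `adjoin_ratio` the field `FunField P` is generated over `ℂ` by the
`ratio P i l`, `i ≠ l` (`ratio P l l = 1`), a set with at most `N` elements, so it contains a
transcendence basis indexed by a subset `s` of `{i | i ≠ l}` (`exists_isTranscendenceBasis_subset` /
`exists_isTranscendenceBasis_between` with the fact that `FunField P` is algebraic over the subalgebra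
generated by the set), and `n = |s| ≤ N` (`IsTranscendenceBasis.cardinalMk_eq`).
-/

open MvPolynomial
open Pool.Agent.H17GT (coordFun functionField)
open Pool.Agent.H17LG.Variety (FunField ratio)

noncomputable section

namespace Pool.Agent.H13.SM

variable {N : ℕ} {P : Ideal (MvPolynomial (Fin (N + 1)) ℂ)}

theorem trdeg_le [P.IsPrime] {l : Fin (N + 1)} (h : coordFun P l ≠ 0) {n : ℕ}
    {z : Fin n → FunField P} (hz : IsTranscendenceBasis ℂ z) : n ≤ N := by
  have htop : IntermediateField.adjoin ℂ
      (Set.range fun i : Fin N => ratio P (l.succAbove i) l) = ⊤ := by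
    rw [eq_top_iff, ← Pool.Agent.H17R.adjoin_ratio h, IntermediateField.adjoin_le_iff]
    rintro y ⟨i, rfl⟩
    dsimp only
    rcases Fin.eq_self_or_eq_succAbove l i with hi | ⟨j, hj⟩
    · rw [hi, Pool.Agent.H17R.ratio_self h]
      exact one_mem _
    · rw [hj]
      exact IntermediateField.subset_adjoin _ _ ⟨j, rfl⟩
  have halg : Algebra.IsAlgebraic (IntermediateField.adjoin ℂ
      (Set.range fun i : Fin N => ratio P (l.succAbove i) l)) (FunField P) := by
    rw [htop]
    refine ⟨fun a => ?_⟩
    exact isAlgebraic_algebraMap (⟨a, IntermediateField.mem_top⟩ :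
      (⊤ : IntermediateField ℂ (FunField P)))
  obtain ⟨J, hJ⟩ := Pool.Agent.H92.GT.exists_index halg hz
  have hinj : Function.Injective J := by
    intro a b hab
    apply hJ.1.injective
    dsimp only
    rw [hab]
  have := Fintype.card_le_of_injective J hinj
  simpa using this

end Pool.Agent.H13.SM
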