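import Pool.Agent.H13.SM.Homog

/-!
# Gradients

`conTan P x` is the tangent space at `x` of the affine cone of `P`.

PROOF of `exists_indep`.  Let `G = span {∇Q(x) | Q ∈ P}` in `Fin (N + 1) → ℂ`.  `conTan P x` is its
annihilator for the pairing `∑ i, v i * u i`, so `finrank G + finrank (conTan P x) = N + 1`
(`Submodule.finrank_add_finrank_dualAnnihilator_eq`, or rank-nullity: let `u_1, .., u_r` be a basis of
`G` among the `∇Q(x)`; `conTan P x` is the kernel of `v ↦ (∑ i, v i * u_k i)_k`, so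
`N + 1 - r ≤ finrank (conTan P x) ≤ n + 1`, `N - n ≤ r`).  The gradients form a spanning set of `G`, so
it contains a basis (`exists_linearIndependent'` or `exists_linearIndependent_extension`); take
`N - n` of its elements.

PROOF of `indep_snoc`.  Let `∑ j, c j • ∇(f j)(w) + e • single l 1 = 0`.  Apply the pairing with `w`:
`∑ i, w i * ∂_i (f j)(w) = 0` (`euler`) and `w l = 1`, so `e = 0`; then all `c j = 0`.  (Gradient of
`X l - 1` at `w` is `Pi.single l 1`.)
-/

open MvPolynomial
open Pool.Agent.H62.FC (Homog)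

noncomputable section

namespace Pool.Agent.H13.SM

variable {N : ℕ} {P : Ideal (MvPolynomial (Fin (N + 1)) ℂ)}

/-- The tangent space at `x` of the affine cone of `P`. -/
def conTan (P : Ideal (MvPolynomial (Fin (N + 1)) ℂ)) (x : Fin (N + 1) → ℂ) :
    Submodule ℂ (Fin (N + 1) → ℂ) where
  carrier := {v | ∀ Q ∈ P, ∑ i, v i * eval x (pderiv i Q) = 0}
  add_mem' := by
    intro u v hu hv Q hQ
    have h1 := hu Q hQ
    have h2 := hv Q hQ
    simp only [Pi.add_apply, add_mul, Finset.sum_add_distrib, h1, h2, add_zero]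
  zero_mem' := by
    intro Q _
    simp
  smul_mem' := by
    intro c v hv Q hQ
    have h1 := hv Q hQ
    simp only [Pi.smul_apply, smul_eq_mul, mul_assoc, ← Finset.mul_sum, h1, mul_zero]

theorem exists_indep {n : ℕ} {x : Fin (N + 1) → ℂ}
    (h : Module.finrank ℂ (conTan P x) ≤ n + 1) :
    ∃ f : Fin (N - n) → MvPolynomial (Fin (N + 1)) ℂ, (∀ j, f j ∈ P) ∧
      LinearIndependent ℂ fun (j : Fin (N - n)) (i : Fin (N + 1)) => eval x (pderiv i (f j)) := by
  classical
  obtain ⟨b, hbS, hspan, hli⟩ := exists_linearIndependent ℂ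
    {u : Fin (N + 1) → ℂ | ∃ Q ∈ P, (fun i => eval x (pderiv i Q)) = u}
  have hfin : Finite b := hli.finite
  have : Fintype b := Fintype.ofFinite b
  let φ : (Fin (N + 1) → ℂ) →ₗ[ℂ] (b → ℂ) :=
    LinearMap.pi fun u => ∑ i, (u : Fin (N + 1) → ℂ) i • (LinearMap.proj i)
  have hφ : ∀ v (u : b), φ v u = ∑ i, (u : Fin (N + 1) → ℂ) i * v i := by
    intro v u
    simp [φ, LinearMap.sum_apply]
  have hker : LinearMap.ker φ ≤ conTan P x := by
    intro v hv Q hQ
    have hv' : ∀ u : b, ∑ i, (u : Fin (N + 1) → ℂ) i * v i = 0 := fun u => by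
      rw [← hφ, LinearMap.mem_ker.mp hv, Pi.zero_apply]
    let ψ : (Fin (N + 1) → ℂ) →ₗ[ℂ] ℂ := ∑ i, v i • (LinearMap.proj i)
    have hψ : ∀ u, ψ u = ∑ i, v i * u i := by
      intro u
      simp [ψ, LinearMap.sum_apply]
    have h1 : Submodule.span ℂ b ≤ LinearMap.ker ψ := by
      rw [Submodule.span_le]
      intro u hu
      rw [SetLike.mem_coe, LinearMap.mem_ker, hψ, ← hv' ⟨u, hu⟩]
      exact Finset.sum_congr rfl fun i _ => mul_comm _ _
    have h2 : (fun i => eval x (pderiv i Q)) ∈ Submodule.span ℂ b := by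
      rw [hspan]
      exact Submodule.subset_span ⟨Q, hQ, rfl⟩
    have h3 := LinearMap.mem_ker.mp (h1 h2)
    rwa [hψ] at h3
  have hrk := LinearMap.finrank_range_add_finrank_ker φ
  have h1 : Module.finrank ℂ (LinearMap.range φ) ≤ Fintype.card b := by
    have := Submodule.finrank_le (LinearMap.range φ)
    rwa [Module.finrank_fintype_fun_eq_card] at this
  have h2 := Submodule.finrank_mono hker
  rw [Module.finrank_fintype_fun_eq_card, Fintype.card_fin] at hrk
  have hcard : Fintype.card (Fin (N - n)) ≤ Fintype.card b := by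
    rw [Fintype.card_fin]
    omega
  obtain ⟨e⟩ := Function.Embedding.nonempty_of_card_le hcard
  choose g hg using fun u : b => hbS u.2
  refine ⟨fun j => g (e j), fun j => (hg (e j)).1, ?_⟩
  have h3 := hli.comp e e.injective
  have h4 : (fun (j : Fin (N - n)) (i : Fin (N + 1)) => eval x (pderiv i (g (e j)))) =
      (Subtype.val : b → Fin (N + 1) → ℂ) ∘ e := by
    funext j
    exact (hg (e j)).2
  rw [h4]
  exact h3

theorem indep_snoc (hP : Homog P) {w : Fin (N + 1) → ℂ} (hw : ∀ Q ∈ P, eval w Q = 0)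
    {l : Fin (N + 1)} (hl : w l = 1) {c : ℕ} {f : Fin c → MvPolynomial (Fin (N + 1)) ℂ}
    (hf : ∀ j, f j ∈ P)
    (hli : LinearIndependent ℂ fun (j : Fin c) (i : Fin (N + 1)) => eval w (pderiv i (f j))) :
    LinearIndependent ℂ fun (j : Fin (c + 1)) (i : Fin (N + 1)) =>
      eval w (pderiv i ((Fin.snoc f (X l - 1) : Fin (c + 1) → MvPolynomial (Fin (N + 1)) ℂ) j)) := by
  classical
  have h1 : (fun (j : Fin (c + 1)) (i : Fin (N + 1)) =>
      eval w (pderiv i ((Fin.snoc f (X l - 1) : Fin (c + 1) → MvPolynomial (Fin (N + 1)) ℂ) j))) =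
      (Fin.snoc (fun (j : Fin c) (i : Fin (N + 1)) => eval w (pderiv i (f j)))
        (Pi.single l 1 : Fin (N + 1) → ℂ) : Fin (c + 1) → Fin (N + 1) → ℂ) := by
    funext j
    refine Fin.lastCases ?_ (fun k => ?_) j
    · funext i
      rw [Fin.snoc_last, Fin.snoc_last, map_sub, pderiv_X, Pi.single_apply, Pi.single_apply]
      simp only [pderiv_one, sub_zero]
      by_cases h : i = l
      · rw [if_pos h.symm, if_pos h, map_one]
      · rw [if_neg fun h' => h h'.symm, if_neg h, map_zero]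
    · funext i
      rw [Fin.snoc_castSucc, Fin.snoc_castSucc]
  rw [h1, linearIndependent_finSnoc]
  refine ⟨hli, fun hmem => ?_⟩
  let ψ : (Fin (N + 1) → ℂ) →ₗ[ℂ] ℂ := ∑ i, w i • (LinearMap.proj i)
  have hψ : ∀ u, ψ u = ∑ i, w i * u i := by
    intro u
    simp [ψ, LinearMap.sum_apply]
  have h2 : Submodule.span ℂ (Set.range fun (j : Fin c) (i : Fin (N + 1)) =>
      eval w (pderiv i (f j))) ≤ LinearMap.ker ψ := by
    rw [Submodule.span_le]
    rintro _ ⟨j, rfl⟩
    rw [SetLike.mem_coe, LinearMap.mem_ker, hψ]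
    exact euler hP hw (hf j)
  have h3 := LinearMap.mem_ker.mp (h2 hmem)
  rw [hψ, Finset.sum_eq_single l] at h3
  · rw [Pi.single_eq_same, mul_one, hl] at h3
    exact one_ne_zero h3
  · intro i _ hi
    rw [Pi.single_eq_of_ne hi, mul_zero]
  · intro h
    exact absurd (Finset.mem_univ l) h

end Pool.Agent.H13.SM
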