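import Pool.Agent.H13.SM.Cone
import Pool.Agent.H17BP.Surf
import Pool.Agent.H17BP.ChLem

/-!
# The cone of a smooth projective surface is a `Surface`

`IsChart` and `Surface` are the definitions of `Pool.Agent.H17BP.Surf`.
-/

open MvPolynomial Topology Filter
open Pool.Agent.H17GT (coordFun functionField)
open Pool.Agent.H17LG.Variety (FunField ratio)
open Pool.Agent.H62.FC (Homog)
open Pool.Agent.H17BP (IsChart Surface Pr)

noncomputable section

namespace Pool.Agent.H13.SM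

variable {N : ℕ} {P : Ideal (MvPolynomial (Fin (N + 1)) ℂ)}

/-- The affine cone of `P` without its vertex. -/
def cone (P : Ideal (MvPolynomial (Fin (N + 1)) ℂ)) : Set (Fin (N + 1) → ℂ) :=
  {x | x ≠ 0 ∧ ∀ Q ∈ P, eval x Q = 0}

/-- The chart with the coordinate ratios `x i / x l`, `x j / x l` as parameters. -/
theorem exists_ratioChart [P.IsPrime] (hP : Homog P) {z : Fin 2 → FunField P}
    (hz : IsTranscendenceBasis ℂ z)
    (hsm : ∀ y ∈ cone P, Module.finrank ℂ (conTan P y) ≤ 3)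
    {x : Fin (N + 1) → ℂ} (hx : x ∈ cone P) {l : Fin (N + 1)} (hl : x l ≠ 0) :
    ∃ (i j : Fin (N + 1)) (σ : ℂ × ℂ → Fin (N + 1) → ℂ),
      IsChart (cone P) σ (fun y => (y i / y l - x i / x l, y j / y l - x j / x l)) ∧ σ 0 = x ∧
      (∀ᶠ p in 𝓝 (0 : ℂ × ℂ), σ p l = x l ∧ σ p i = x i + x l * p.1 ∧ σ p j = x j + x l * p.2) ∧
      (∀ᶠ y in 𝓝 x, (∀ Q ∈ P, eval y Q = 0) →
        y = (y l / x l) • σ (y i / y l - x i / x l, y j / y l - x j / x l)) ∧
      ∀ (d : ℕ) (Q : MvPolynomial (Fin (N + 1)) ℂ), Q.IsHomogeneous d → Q ∉ P →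
        ¬ ∀ᶠ p in 𝓝 (0 : ℂ × ℂ), eval (σ p) Q = 0 := by
  obtain ⟨I, σ, h1, h2, h3, h4, h5⟩ := exists_coneChart hP hz (fun y hy hy' => hsm y ⟨hy, hy'⟩)
    hx.2 hl
  -- the linear isomorphism `ℂ × ℂ → (Fin 2 → ℂ)`
  have hvan : ∀ p : ℂ × ℂ, AnalyticAt ℂ (fun q : ℂ × ℂ => (![q.1, q.2] : Fin 2 → ℂ)) p := by
    intro p
    refine AnalyticAt.pi fun k => ?_
    fin_cases k
    · exact analyticAt_fst
    · exact analyticAt_snd
  have hv0 : (![(0 : ℂ × ℂ).1, (0 : ℂ × ℂ).2] : Fin 2 → ℂ) = 0 := by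
    funext k
    fin_cases k <;> rfl
  have hvt : Tendsto (fun q : ℂ × ℂ => (![q.1, q.2] : Fin 2 → ℂ)) (𝓝 0) (𝓝 0) := by
    have := (hvan 0).continuousAt.tendsto
    rwa [hv0] at this
  have hl1 : ∀ᶠ y in 𝓝 x, y l ≠ 0 :=
    (continuous_apply l).continuousAt.eventually_ne hl
  have hvec : ∀ y : Fin (N + 1) → ℂ, (fun k => y (I k) / y l - x (I k) / x l) =
      (![y (I 0) / y l - x (I 0) / x l, y (I 1) / y l - x (I 1) / x l] : Fin 2 → ℂ) := by
    intro y
    funext k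
    fin_cases k <;> rfl
  have h4' : ∀ᶠ y in 𝓝 x, (∀ Q ∈ P, eval y Q = 0) →
      y = (y l / x l) • σ ![y (I 0) / y l - x (I 0) / x l, y (I 1) / y l - x (I 1) / x l] := by
    filter_upwards [h4] with y hy hy'
    have := hy hy'
    rwa [hvec] at this
  have hσ0 : σ ![(0 : ℂ × ℂ).1, (0 : ℂ × ℂ).2] = x := by rw [hv0, h2]
  refine ⟨I 0, I 1, fun p => σ ![p.1, p.2], ?_, hσ0, ?_, h4', ?_⟩
  · refine ⟨?_, ?_, ?_, ?_, ?_, ?_, ?_⟩
    · have h6 : AnalyticAt ℂ σ ((fun q : ℂ × ℂ => (![q.1, q.2] : Fin 2 → ℂ)) 0) := by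
        simpa only [hv0] using h1
      exact AnalyticAt.comp (g := σ) (f := fun q : ℂ × ℂ => (![q.1, q.2] : Fin 2 → ℂ)) h6 (hvan 0)
    · filter_upwards [hvt.eventually h3] with p hp
      refine ⟨?_, hp.1⟩
      intro h6
      apply hl
      rw [← hp.2.1, h6]
      rfl
    · rw [hσ0]
      exact hx.1
    · rw [hσ0]
      have hpr : ∀ i : Fin (N + 1), AnalyticAt ℂ (fun y : Fin (N + 1) → ℂ => y i) x := fun i =>
        (ContinuousLinearMap.proj (R := ℂ) (φ := fun _ : Fin (N + 1) => ℂ) i).analyticAt x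
      exact (((hpr _).div (hpr l) hl).sub analyticAt_const).prod
        (((hpr _).div (hpr l) hl).sub analyticAt_const)
    · filter_upwards [hvt.eventually h3] with p hp
      have e0 := hp.2.2 0
      have e1 := hp.2.2 1
      simp only [Matrix.cons_val_zero, Matrix.cons_val_one] at e0 e1
      ext
      · change σ ![p.1, p.2] (I 0) / σ ![p.1, p.2] l - x (I 0) / x l = p.1
        rw [e0, hp.2.1]
        field_simp
        ring
      · change σ ![p.1, p.2] (I 1) / σ ![p.1, p.2] l - x (I 1) / x l = p.2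
        rw [e1, hp.2.1]
        field_simp
        ring
    · rw [hσ0]
      filter_upwards [h4', hl1] with y hy hyl hyX
      exact ⟨y l / x l, div_ne_zero hyl hl, hy hyX.2⟩
    · rw [hσ0]
      have h7 : ∀ᶠ p in 𝓝 (x, (1 : ℂ)), p.2 ≠ 0 := by
        have : ContinuousAt (fun p : (Fin (N + 1) → ℂ) × ℂ => p.2) (x, (1 : ℂ)) :=
          continuousAt_snd
        exact this.eventually_ne one_ne_zero
      filter_upwards [h7] with p hp
      simp only [Pi.smul_apply, smul_eq_mul]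
      rw [mul_div_mul_left _ _ hp, mul_div_mul_left _ _ hp]
  · filter_upwards [hvt.eventually h3] with p hp
    have e0 := hp.2.2 0
    have e1 := hp.2.2 1
    simp only [Matrix.cons_val_zero, Matrix.cons_val_one] at e0 e1
    exact ⟨hp.2.1, e0, e1⟩
  · intro d Q hQ hQP h8
    refine h5 d Q hQ hQP ?_
    -- transport back along the inverse isomorphism
    have hpt : Tendsto (fun u : Fin 2 → ℂ => ((u 0, u 1) : ℂ × ℂ)) (𝓝 0) (𝓝 0) := by
      have : Continuous (fun u : Fin 2 → ℂ => ((u 0, u 1) : ℂ × ℂ)) := by fun_prop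
      exact this.tendsto' _ _ rfl
    filter_upwards [hpt.eventually h8] with u hu
    have h9 : (![u 0, u 1] : Fin 2 → ℂ) = u := by
      funext k
      fin_cases k <;> rfl
    simpa only [h9] using hu

theorem surface_cone [P.IsPrime] (hP : Homog P) {z : Fin 2 → FunField P}
    (hz : IsTranscendenceBasis ℂ z) (hsm : ∀ y ∈ cone P, Module.finrank ℂ (conTan P y) ≤ 3) :
    Surface (cone P) := by
  refine ⟨fun h => h.1 rfl, ?_, ?_, ?_⟩
  · intro x hx c hc
    exact ⟨smul_ne_zero hc hx.1, cone_smul hP hx.2 c⟩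
  · intro x hx h0
    refine ⟨h0, fun Q hQ => ?_⟩
    have h1 : IsClosed {y : Fin (N + 1) → ℂ | eval y Q = 0} :=
      isClosed_eq (MvPolynomial.continuous_eval Q) continuous_const
    have h2 : cone P ⊆ {y : Fin (N + 1) → ℂ | eval y Q = 0} := fun y hy => hy.2 Q hQ
    exact h1.closure_subset_iff.2 h2 hx
  · intro x hx
    obtain ⟨l, hl⟩ : ∃ l, x l ≠ 0 := by
      by_contra h
      push Not at h
      exact hx.1 (funext h)
    obtain ⟨i, j, σ, h1, h2, -⟩ := exists_ratioChart hP hz hsm hx hl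
    exact ⟨σ, _, h1, h2⟩

/-- A form which does not vanish on the surface is not identically zero in any chart. -/
theorem frequently_ne_zero [P.IsPrime] (hP : Homog P) {z : Fin 2 → FunField P}
    (hz : IsTranscendenceBasis ℂ z) (hsm : ∀ y ∈ cone P, Module.finrank ℂ (conTan P y) ≤ 3)
    {σ : ℂ × ℂ → Fin (N + 1) → ℂ} {τ : (Fin (N + 1) → ℂ) → ℂ × ℂ} (h : IsChart (cone P) σ τ)
    {d : ℕ} {Q : MvPolynomial (Fin (N + 1)) ℂ} (hQ : Q.IsHomogeneous d) (hQP : Q ∉ P) :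
    ∃ᶠ p in 𝓝 (0 : ℂ × ℂ), eval (σ p) Q ≠ 0 := by
  intro h8
  have hS := surface_cone hP hz hsm
  have hx : σ 0 ∈ cone P := h.σ_mem.self_of_nhds
  obtain ⟨l, hl⟩ : ∃ l, σ 0 l ≠ 0 := by
    by_contra h'
    push Not at h'
    exact hx.1 (funext h')
  obtain ⟨i, j, σ', h1, h2, -, -, h5⟩ := exists_ratioChart hP hz hsm hx hl
  obtain ⟨θ, hθ, hPr⟩ := IsChart.trans hS.smul h h1 (by rw [h2]; exact Pr.refl _)
  refine h5 d Q hQ hQP ?_
  filter_upwards [hPr, hθ.tendsto.eventually h8] with p hp hp'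
  push Not at hp'
  obtain ⟨c, hc, hpc⟩ := hp
  have h9 : eval (c • σ (θ p)) Q = c ^ d * eval (σ (θ p)) Q := by
    have h10 := Pool.Agent.H92.GT.Proj.aeval_scale (K := ℂ) hQ c (σ (θ p))
    rw [MvPolynomial.aeval_eq_eval, MvPolynomial.aeval_eq_eval] at h10
    exact h10
  rw [hpc, h9, hp', mul_zero]

end Pool.Agent.H13.SM
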