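import Mathlib

/-!
# The implicit function theorem for polynomials, with coordinates as parameters

PROOF.  The gradients `g j = fun i => eval w (pderiv i (f j))` are linearly independent in `ι → ℂ`,
`j : Fin c`.  Extend them by standard basis vectors to a basis: with `s = Set.range g`,
`t = s ∪ Set.range (fun i => Pi.single i 1)` take `s ⊆ B ⊆ t` linearly independent with
`t ⊆ span B` (`exists_linearIndependent_extension`), so `B` is a basis of `ι → ℂ`, `|B| = c + n`, and
`B \ s` consists of `n` standard basis vectors `Pi.single (I k) 1`.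
Let `Φ y = (fun j => eval y (f j), fun k => y (I k) - w (I k))`.  It is analytic, `Φ w = 0` and its
derivative at `w`, `v ↦ (∑ i, g j i * v i, v (I k))`, is injective: if it kills `v` then
`∑ i, u i * v i = 0` for all `u ∈ B`, hence for all `u`, so `v = 0`.  By dimension it is a linear
equivalence.  Let `Ψ` be the local inverse (`HasStrictFDerivAt.toOpenPartialHomeomorph`), analytic at
`0` (`OpenPartialHomeomorph.hasFPowerSeriesAt_symm` / `analyticAt_symm`); `σ u = Ψ (0, u)`.
-/

open MvPolynomial Topology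

noncomputable section

namespace Pool.Agent.H13.SM

/-- The derivative of the evaluation map of a polynomial. -/
theorem Inv_hasFDerivAt_eval {ι : Type} [Fintype ι] (p : MvPolynomial ι ℂ) (w : ι → ℂ) :
    HasFDerivAt (fun y : ι → ℂ => eval y p)
      (∑ i, eval w (pderiv i p) • (ContinuousLinearMap.proj i : (ι → ℂ) →L[ℂ] ℂ)) w := by
  classical
  induction p using MvPolynomial.induction_on with
  | C a =>
    have h := hasFDerivAt_const (𝕜 := ℂ) a w
    have h2 : HasFDerivAt (fun y : ι → ℂ => eval y (C a : MvPolynomial ι ℂ)) (0 : (ι → ℂ) →L[ℂ] ℂ) w := by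
      simpa using h
    refine h2.congr_fderiv ?_
    ext v
    simp
  | add p q hp hq =>
    have h := hp.add hq
    have h2 : (fun y : ι → ℂ => eval y (p + q)) = (fun y => eval y p) + fun y => eval y q := by
      funext y
      exact map_add _ _ _
    rw [h2]
    refine h.congr_fderiv ?_
    ext v
    simp [Finset.sum_add_distrib, add_mul]
  | mul_X p n hp =>
    have h1 : HasFDerivAt (fun y : ι → ℂ => y n)
        (ContinuousLinearMap.proj n : (ι → ℂ) →L[ℂ] ℂ) w := hasFDerivAt_apply n w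
    have h := hp.mul h1
    have h2 : (fun y : ι → ℂ => eval y (p * X n)) = (fun y => eval y p) * fun y => y n := by
      funext y
      simp only [map_mul, eval_X, Pi.mul_apply]
    rw [h2]
    refine h.congr_fderiv ?_
    ext v
    simp only [Derivation.leibniz, pderiv_X, smul_eq_mul, map_add, map_mul, eval_X,
      FunLike.coe_add, FunLike.coe_smul, Pi.add_apply, Pi.smul_apply, ContinuousLinearMap.proj_apply,
      sum_apply, add_mul]
    rw [Finset.sum_add_distrib]
    congr 1
    · rw [Finset.sum_eq_single n]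
      · simp
      · intro b _ hb
        simp [hb.symm]
      · intro h; exact absurd (Finset.mem_univ n) h
    · rw [Finset.mul_sum]
      exact Finset.sum_congr rfl fun i _ => by ring

/-- Completion of independent vectors by standard basis vectors. -/
theorem Inv_exists_coords {ι : Type} [Fintype ι] {c n : ℕ} (hcn : c + n = Fintype.card ι)
    {g : Fin c → ι → ℂ} (hli : LinearIndependent ℂ g) :
    ∃ I : Fin n → ι, ∀ v : ι → ℂ, (∀ j, ∑ i, g j i * v i = 0) → (∀ k, v (I k) = 0) → v = 0 := by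
  classical
  set S : Submodule ℂ (ι → ℂ) := Submodule.span ℂ (Set.range g) with hS
  have hfS : Module.finrank ℂ S = c := by
    rw [hS, finrank_span_eq_card hli, Fintype.card_fin]
  have hfW : Module.finrank ℂ ((ι → ℂ) ⧸ S) = n := by
    have h := Submodule.finrank_quotient_add_finrank S
    rw [hfS, Module.finrank_fintype_fun_eq_card] at h
    omega
  let q : ι → (ι → ℂ) ⧸ S := fun i => S.mkQ (Pi.single i 1)
  have hspan : Submodule.span ℂ (Set.range q) = ⊤ := by
    have h1 : Set.range q = S.mkQ '' Set.range (fun i : ι => (Pi.single i (1 : ℂ) : ι → ℂ)) := by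
      rw [← Set.range_comp]; rfl
    rw [h1, Submodule.span_image]
    have h2 : Submodule.span ℂ (Set.range (fun i : ι => (Pi.single i (1 : ℂ) : ι → ℂ))) = ⊤ := by
      have := (Pi.basisFun ℂ ι).span_eq
      convert this using 2
      ext i
      simp
    rw [h2, Submodule.map_top, Submodule.range_mkQ]
  obtain ⟨κ, a, ha, hsp, hlin⟩ := exists_linearIndependent' ℂ q
  have hb := Module.Basis.mk hlin (by rw [hsp, hspan])
  have : Finite κ := Finite.of_injective a ha
  have : Fintype κ := Fintype.ofFinite κ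
  have hcard : Fintype.card κ = n := by
    rw [← hfW, Module.finrank_eq_card_basis hb]
  let e : Fin n ≃ κ := (Fintype.equivFinOfCardEq hcard).symm
  refine ⟨fun k => a (e k), fun v hv1 hv2 => ?_⟩
  -- the functional
  let φ : (ι → ℂ) →ₗ[ℂ] ℂ := ∑ i, v i • (LinearMap.proj i : (ι → ℂ) →ₗ[ℂ] ℂ)
  have hφ : ∀ u : ι → ℂ, φ u = ∑ i, v i * u i := by
    intro u
    simp [φ]
  have hφS : S ≤ LinearMap.ker φ := by
    rw [hS, Submodule.span_le]
    rintro _ ⟨j, rfl⟩
    rw [SetLike.mem_coe, LinearMap.mem_ker, hφ, ← hv1 j]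
    exact Finset.sum_congr rfl fun i _ => mul_comm _ _
  let ψ : ((ι → ℂ) ⧸ S) →ₗ[ℂ] ℂ := S.liftQ φ hφS
  have hψ : ∀ u, ψ (S.mkQ u) = φ u := fun u => by simp [ψ]
  have hψ0 : ψ = 0 := by
    apply LinearMap.ext_on_range (v := q ∘ a)
    · rw [hsp, hspan]
    · intro k
      obtain ⟨k', rfl⟩ := e.surjective k
      show ψ (S.mkQ (Pi.single (a (e k')) 1)) = 0
      rw [hψ, hφ, Finset.sum_eq_single (a (e k'))]
      · rw [hv2 k', zero_mul]
      · intro b _ hb
        rw [Pi.single_eq_of_ne hb, mul_zero]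
      · intro h; exact absurd (Finset.mem_univ _) h
  ext i
  have h3 : φ (Pi.single i 1) = 0 := by rw [← hψ, hψ0]; rfl
  rw [hφ, Finset.sum_eq_single i] at h3
  · simpa using h3
  · intro b _ hb
    rw [Pi.single_eq_of_ne hb, mul_zero]
  · intro h; exact absurd (Finset.mem_univ _) h

theorem exists_implicit {ι : Type} [Fintype ι] {c n : ℕ} (hcn : c + n = Fintype.card ι)
    {f : Fin c → MvPolynomial ι ℂ} {w : ι → ℂ} (hf : ∀ j, eval w (f j) = 0)
    (hli : LinearIndependent ℂ fun (j : Fin c) (i : ι) => eval w (pderiv i (f j))) :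
    ∃ (I : Fin n → ι) (σ : (Fin n → ℂ) → ι → ℂ), AnalyticAt ℂ σ 0 ∧ σ 0 = w ∧
      (∀ᶠ u in 𝓝 0, (∀ j, eval (σ u) (f j) = 0) ∧ ∀ k, σ u (I k) = w (I k) + u k) ∧
      ∀ᶠ y in 𝓝 w, (∀ j, eval y (f j) = 0) → y = σ (fun k => y (I k) - w (I k)) := by
  classical
  obtain ⟨I, hI⟩ := Inv_exists_coords hcn hli
  let Φ : (ι → ℂ) → (Fin c → ℂ) × (Fin n → ℂ) :=
    fun y => (fun j => eval y (f j), fun k => y (I k) - w (I k))
  have hΦan : AnalyticAt ℂ Φ w := by
    apply AnalyticAt.prod
    · rw [analyticAt_pi_iff]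
      intro j
      exact AnalyticOnNhd.eval_mvPolynomial (f j) w (Set.mem_univ _)
    · rw [analyticAt_pi_iff]
      intro k
      exact ((ContinuousLinearMap.proj (I k) : (ι → ℂ) →L[ℂ] ℂ).analyticAt w).sub analyticAt_const
  have hΦw : Φ w = 0 := by
    apply Prod.ext
    · funext j; exact hf j
    · funext k; exact sub_self _
  let L : (ι → ℂ) →L[ℂ] (Fin c → ℂ) × (Fin n → ℂ) :=
    (ContinuousLinearMap.pi fun j => ∑ i, eval w (pderiv i (f j)) •
      (ContinuousLinearMap.proj i : (ι → ℂ) →L[ℂ] ℂ)).prod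
      (ContinuousLinearMap.pi fun k => (ContinuousLinearMap.proj (I k) : (ι → ℂ) →L[ℂ] ℂ))
  have hL : HasFDerivAt Φ L w := by
    apply HasFDerivAt.prodMk
    · rw [hasFDerivAt_pi]
      intro j
      exact Inv_hasFDerivAt_eval (f j) w
    · rw [hasFDerivAt_pi]
      intro k
      exact (hasFDerivAt_apply (I k) w).sub_const _
  have hLinj : Function.Injective (L : (ι → ℂ) →ₗ[ℂ] (Fin c → ℂ) × (Fin n → ℂ)) := by
    rw [injective_iff_map_eq_zero]
    intro v hv
    apply hI v
    · intro j
      have h1 := congrFun (congrArg Prod.fst hv) j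
      simpa [L] using h1
    · intro k
      have h1 := congrFun (congrArg Prod.snd hv) k
      simpa [L] using h1
  have hdim : Module.finrank ℂ (ι → ℂ) = Module.finrank ℂ ((Fin c → ℂ) × (Fin n → ℂ)) := by
    rw [Module.finrank_prod, Module.finrank_fintype_fun_eq_card, Module.finrank_fintype_fun_eq_card,
      Module.finrank_fintype_fun_eq_card, Fintype.card_fin, Fintype.card_fin, hcn]
  let Le : (ι → ℂ) ≃ₗ[ℂ] (Fin c → ℂ) × (Fin n → ℂ) :=
    LinearEquiv.ofInjectiveOfFinrankEq (L : (ι → ℂ) →ₗ[ℂ] (Fin c → ℂ) × (Fin n → ℂ)) hLinj hdim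
  let Lc : (ι → ℂ) ≃L[ℂ] (Fin c → ℂ) × (Fin n → ℂ) := Le.toContinuousLinearEquiv
  have hLc : (Lc : (ι → ℂ) →L[ℂ] (Fin c → ℂ) × (Fin n → ℂ)) = L := by
    ext1 v; rfl
  have hL' : HasFDerivAt Φ (Lc : (ι → ℂ) →L[ℂ] (Fin c → ℂ) × (Fin n → ℂ)) w := by
    rw [hLc]; exact hL
  have hcd : ContDiffAt ℂ ⊤ Φ w := hΦan.contDiffAt
  have hs := hcd.hasStrictFDerivAt' hL' (by simp)
  let Ψ := hs.localInverse Φ Lc w
  have hΨan : AnalyticAt ℂ Ψ 0 := by
    have h1 : ContDiffAt ℂ ⊤ (hcd.localInverse hL' (by simp)) (Φ w) := hcd.to_localInverse hL' (by simp)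
    rw [hΦw] at h1
    have h2 := contDiffWithinAt_omega_iff_analyticWithinAt.1 (contDiffWithinAt_univ.2 h1)
    exact analyticWithinAt_univ.1 h2
  have hright : ∀ᶠ y in 𝓝 (0 : (Fin c → ℂ) × (Fin n → ℂ)), Φ (Ψ y) = y := by
    have := hs.eventually_right_inverse
    rwa [hΦw] at this
  have hleft : ∀ᶠ y in 𝓝 w, Ψ (Φ y) = y := hs.eventually_left_inverse
  have hΨ0 : Ψ 0 = w := by
    have := hleft.self_of_nhds
    rwa [hΦw] at this
  have hemb : AnalyticAt ℂ (fun u : Fin n → ℂ => ((0 : Fin c → ℂ), u)) 0 :=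
    analyticAt_const.prod analyticAt_id
  have hcont : Filter.Tendsto (fun u : Fin n → ℂ => ((0 : Fin c → ℂ), u)) (𝓝 0) (𝓝 0) := by
    have := hemb.continuousAt
    exact this
  refine ⟨I, fun u => Ψ (0, u), ?_, hΨ0, ?_, ?_⟩
  · exact AnalyticAt.comp (g := Ψ) (f := fun u : Fin n → ℂ => ((0 : Fin c → ℂ), u)) hΨan hemb
  · filter_upwards [hcont.eventually hright] with u hu
    constructor
    · intro j
      exact congrFun (congrArg Prod.fst hu) j
    · intro k
      have := congrFun (congrArg Prod.snd hu) k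
      have h' : Ψ (0, u) (I k) - w (I k) = u k := this
      rw [← h']; ring
  · filter_upwards [hleft] with y hy hy0
    rw [← hy]
    congr 1
    show Φ y = (0, fun k => Ψ (Φ y) (I k) - w (I k))
    rw [hy]
    apply Prod.ext
    · funext j; exact hy0 j
    · rfl

end Pool.Agent.H13.SM
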