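import Mathlib

/-!
# The zero set of an analytic function is a null set

PROOF.  `h` is analytic on a ball of radius `r` around `0` (`AnalyticAt.eventually_analyticAt`; sup norm,
the ball is convex), and since it is not eventually `0` there is `v` with `‖v‖ < r / 2`, `h v ≠ 0`;
`v ≠ 0` since `h 0 = 0`.  By continuity there is `0 < δ ≤ r / 2` with `h (p + v) ≠ 0` for `‖p‖ < δ`.  Take
`W = Metric.ball 0 δ`, `Z' = {x ∈ W | h x = 0}`, measurable since `W \ Z' = {x ∈ W | h x ≠ 0}` is open.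
By `MeasureTheory.ae_mem_of_ae_add_linearMap_mem` for `L : ℂ →ₗ[ℝ] (Fin n → ℂ)`, `t ↦ t • v`, and
`s = Z'ᶜ`, it is enough that for every `y` the set `{t : ℂ | y + t • v ∈ Z'}` is null.  If it is not
empty, let `p = y + t₀ • v ∈ Z'`; the set is the translate by `t₀` of a subset of
`{s ∈ D | h (p + s • v) = 0}`, `D = {s : ℂ | ‖p + s • v‖ < r}`.  `D` is open and convex, contains `0` and
`1`, and `g s = h (p + s • v)` is analytic on `D` with `g 1 ≠ 0`.  So the zeros of `g` in `D` are
isolated (`AnalyticOnNhd.eqOn_zero_of_preconnected_of_frequently_eq_zero`,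
`AnalyticAt.eventually_eq_zero_or_eventually_ne_zero`) and the zero set is null: it is codiscrete in `D`
(`AnalyticOnNhd.preimage_zero_mem_codiscreteWithin` or similar) and
`MeasureTheory.ae_restrict_le_codiscreteWithin`; or it is countable.
-/

open Topology MeasureTheory

noncomputable section

namespace Pool.Agent.H13.SM

private theorem Null_line {n : ℕ} {h : (Fin n → ℂ) → ℂ} {r : ℝ} {v p : Fin n → ℂ}
    (hball : ∀ y ∈ Metric.ball (0 : Fin n → ℂ) r, AnalyticAt ℂ h y)
    (hpv : p + v ∈ Metric.ball (0 : Fin n → ℂ) r) (hv : h (p + v) ≠ 0) :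
    ∀ᵐ s : ℂ, p + s • v ∈ Metric.ball (0 : Fin n → ℂ) r → h (p + s • v) ≠ 0 := by
  have hline : Continuous fun s : ℂ => p + s • v :=
    continuous_const.add (continuous_id.smul continuous_const)
  have hDo : IsOpen {s : ℂ | p + s • v ∈ Metric.ball (0 : Fin n → ℂ) r} :=
    Metric.isOpen_ball.preimage hline
  have hDc : Convex ℝ {s : ℂ | p + s • v ∈ Metric.ball (0 : Fin n → ℂ) r} := by
    intro x hx y hy a b ha hb hab
    have h1 := (convex_ball (0 : Fin n → ℂ) r) hx hy ha hb hab
    have h2 : a • (p + x • v) + b • (p + y • v) = p + (a • x + b • y) • v := by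
      have h3 : (a + b) • p = p := by rw [hab, one_smul]
      calc a • (p + x • v) + b • (p + y • v) = (a + b) • p + (a • x + b • y) • v := by
            rw [smul_add, smul_add, add_smul, add_smul, smul_assoc, smul_assoc]
            abel
        _ = _ := by rw [h3]
    rw [h2] at h1
    exact h1
  have hg : AnalyticOnNhd ℂ (fun s : ℂ => h (p + s • v))
      {s : ℂ | p + s • v ∈ Metric.ball (0 : Fin n → ℂ) r} := by
    intro s hs
    have h1 : AnalyticAt ℂ (fun s : ℂ => p + s • v) s :=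
      analyticAt_const.add (analyticAt_id.smul analyticAt_const)
    exact AnalyticAt.comp (g := h) (f := fun s : ℂ => p + s • v) (hball _ hs) h1
  have h1D : (1 : ℂ) ∈ {s : ℂ | p + s • v ∈ Metric.ball (0 : Fin n → ℂ) r} := by
    show p + (1 : ℂ) • v ∈ Metric.ball (0 : Fin n → ℂ) r
    rw [one_smul]
    exact hpv
  rcases hg.eqOn_zero_or_eventually_ne_zero_of_preconnected hDc.isPreconnected with h2 | h2
  · exfalso
    have h3 := h2 h1D
    apply hv
    simpa using h3
  · have h3 := ae_restrict_le_codiscreteWithin (μ := (volume : Measure ℂ)) hDo.measurableSet h2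
    exact (ae_restrict_iff' hDo.measurableSet).1 h3

theorem exists_null {n : ℕ} {h : (Fin n → ℂ) → ℂ} (hh : AnalyticAt ℂ h 0) (h0 : h 0 = 0)
    (hne : ¬ ∀ᶠ u in 𝓝 0, h u = 0) :
    ∃ W ∈ 𝓝 (0 : Fin n → ℂ), volume {u | u ∈ W ∧ h u = 0} = 0 := by
  obtain ⟨r, hr, hball⟩ := Metric.eventually_nhds_iff_ball.1 hh.eventually_analyticAt
  have hex : ∃ v ∈ Metric.ball (0 : Fin n → ℂ) (r / 2), h v ≠ 0 := by
    by_contra hcon
    push Not at hcon
    exact hne (Filter.mem_of_superset (Metric.ball_mem_nhds 0 (half_pos hr)) fun u hu => hcon u hu)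
  obtain ⟨v, hvr, hv⟩ := hex
  have hvr' : v ∈ Metric.ball (0 : Fin n → ℂ) r := Metric.ball_subset_ball (by linarith) hvr
  have hcont : ContinuousAt (fun p : Fin n → ℂ => h (p + v)) 0 := by
    have h1 : ContinuousAt h ((0 : Fin n → ℂ) + v) := by
      rw [zero_add]
      exact (hball v hvr').continuousAt
    exact ContinuousAt.comp (g := h) (f := fun p : Fin n → ℂ => p + v) h1
      (continuousAt_id.add continuousAt_const)
  have hev : ∀ᶠ p in 𝓝 (0 : Fin n → ℂ), h (p + v) ≠ 0 := hcont.eventually_ne (by rwa [zero_add])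
  obtain ⟨δ0, hδ0, hδ⟩ := Metric.eventually_nhds_iff_ball.1 hev
  have hδpos : 0 < min δ0 (r / 2) := lt_min hδ0 (half_pos hr)
  have hsub : Metric.ball (0 : Fin n → ℂ) (min δ0 (r / 2)) ⊆ Metric.ball 0 r :=
    Metric.ball_subset_ball ((min_le_right _ _).trans (by linarith))
  refine ⟨Metric.ball 0 (min δ0 (r / 2)), Metric.ball_mem_nhds 0 hδpos, ?_⟩
  have hZm : MeasurableSet {u : Fin n → ℂ | u ∈ Metric.ball (0 : Fin n → ℂ) (min δ0 (r / 2)) ∧ h u = 0} := by
    have hc : ContinuousOn h (Metric.ball (0 : Fin n → ℂ) (min δ0 (r / 2))) :=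
      fun u hu => (hball u (hsub hu)).continuousAt.continuousWithinAt
    have ho : IsOpen (Metric.ball (0 : Fin n → ℂ) (min δ0 (r / 2)) ∩ h ⁻¹' {0}ᶜ) :=
      hc.isOpen_inter_preimage Metric.isOpen_ball isOpen_compl_singleton
    have he : {u : Fin n → ℂ | u ∈ Metric.ball (0 : Fin n → ℂ) (min δ0 (r / 2)) ∧ h u = 0} =
        Metric.ball (0 : Fin n → ℂ) (min δ0 (r / 2)) \
          (Metric.ball (0 : Fin n → ℂ) (min δ0 (r / 2)) ∩ h ⁻¹' {0}ᶜ) := by
      ext u
      constructor
      · rintro ⟨h1, h2⟩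
        exact ⟨h1, fun h3 => h3.2 h2⟩
      · rintro ⟨h1, h2⟩
        refine ⟨h1, ?_⟩
        by_contra h3
        exact h2 ⟨h1, h3⟩
    rw [he]
    exact Metric.isOpen_ball.measurableSet.diff ho.measurableSet
  have key : ∀ᵐ y : Fin n → ℂ, y ∈ {u : Fin n → ℂ | u ∈ Metric.ball (0 : Fin n → ℂ) (min δ0 (r / 2)) ∧ h u = 0}ᶜ := by
    refine ae_mem_of_ae_add_linearMap_mem (LinearMap.toSpanSingleton ℂ (Fin n → ℂ) v) volume volume
      hZm.compl fun y => ?_
    by_cases hy : ∃ t0 : ℂ, y + t0 • v ∈ {u : Fin n → ℂ | u ∈ Metric.ball (0 : Fin n → ℂ) (min δ0 (r / 2)) ∧ h u = 0}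
    · obtain ⟨t0, hp1, -⟩ := hy
      have hp2 : ‖y + t0 • v‖ < min δ0 (r / 2) := by simpa using hp1
      have hpv : (y + t0 • v) + v ∈ Metric.ball (0 : Fin n → ℂ) r := by
        rw [mem_ball_zero_iff]
        have h1 := norm_add_le (y + t0 • v) v
        have h2 : ‖v‖ < r / 2 := by simpa using hvr
        have h3 : min δ0 (r / 2) ≤ r / 2 := min_le_right _ _
        linarith
      have hne1 : h ((y + t0 • v) + v) ≠ 0 :=
        hδ _ (Metric.ball_subset_ball (min_le_left _ _) hp1)
      have h1 := Null_line hball hpv hne1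
      have h2 := (measurePreserving_sub_right (volume : Measure ℂ) t0).quasiMeasurePreserving.ae h1
      filter_upwards [h2] with t ht hZ
      have h3 : y + t0 • v + (t - t0) • v = y + t • v := by
        rw [sub_smul]
        abel
      rw [h3] at ht
      have h4 : y + (LinearMap.toSpanSingleton ℂ (Fin n → ℂ) v) t = y + t • v := by
        rw [LinearMap.toSpanSingleton_apply]
      rw [h4] at hZ
      exact ht (hsub hZ.1) hZ.2
    · refine Filter.Eventually.of_forall fun t hZ => hy ⟨t, ?_⟩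
      have h4 : y + (LinearMap.toSpanSingleton ℂ (Fin n → ℂ) v) t = y + t • v := by
        rw [LinearMap.toSpanSingleton_apply]
      rw [h4] at hZ
      exact hZ
  have h5 := mem_ae_iff.1 key
  have h6 : {y : Fin n → ℂ | y ∈ {u : Fin n → ℂ | u ∈ Metric.ball (0 : Fin n → ℂ) (min δ0 (r / 2)) ∧ h u = 0}ᶜ}ᶜ =
      {u : Fin n → ℂ | u ∈ Metric.ball (0 : Fin n → ℂ) (min δ0 (r / 2)) ∧ h u = 0} :=
    compl_compl _
  rw [h6] at h5
  exact h5

end Pool.Agent.H13.SM
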