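import Pool.Agent.H13.SM.Dense
import Pool.Agent.H13.SM.Null
import Pool.Agent.H13.SM.Inv

/-!
# A chart at a smooth point of an affine variety

PROOF.  Let `I, σ` be as in `exists_implicit` (the `f j` vanish at `w` since `w ∈ pts a`).  Only
`∀ᶠ u in 𝓝 0, σ u ∈ pts a` is left, and the last clause.

The ideal `{Q | aeval a Q = 0}` is generated by finitely many `g 1, ..., g r` (noetherian).  Suppose
that `h u = eval (σ u) (g k)` is not eventually `0` near `0` for some `k`; `h` is analytic at `0` and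
`h 0 = eval w (g k) = 0`.  Let `W` be as in `exists_null`; shrink it to an open neighbourhood of `0` on
which `σ` is analytic.  The points `y ∈ pts a` near `w`, say `y ∈ U`, are `σ (u y)` with
`u y k = y (I k) - w (I k)`, `u y ∈ W`, and `h (u y) = eval y (g k) = 0`.  So with `b, B` of
`exists_noether` the image of `pts a ∩ U` under `y ↦ (eval y (B j))_j` is contained in the image of the
null set `{u ∈ W | h u = 0}` under the map `u ↦ (eval (σ u) (B j))_j`, which is differentiable on `W`: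
it is null (`MeasureTheory.addHaar_image_eq_zero_of_differentiableOn_of_addHaar_eq_zero`, over `ℝ`).  But
it is a neighbourhood of a point by `open_at`, so it has positive measure (`IsOpen.measure_pos`).
So all `g k` vanish on `σ u` for `u` near `0`, hence all `Q` with `aeval a Q = 0` do (`Q = ∑ c_k g k`,
`Submodule.span_induction` or `Ideal.mem_span_range_iff_exists_fun`).

Last clause: if `eval (σ u) Q = 0` for `u` near `0` then, as `u y → 0` for `y → w`, `eval y Q = 0` for
`y ∈ pts a` near `w`, against `not_eventually_zero`.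
-/

open MvPolynomial Topology

noncomputable section

namespace Pool.Agent.H13.SM

variable {ι K : Type} [Field K] [Algebra ℂ K]

/-- A polynomial which vanishes at the generic point vanishes along the chart. -/
private theorem Aff_key [Fintype ι] {a : ι → K}
    (ha : IntermediateField.adjoin ℂ (Set.range a) = ⊤)
    {n : ℕ} {z : Fin n → K} (hz : IsTranscendenceBasis ℂ z)
    {w : ι → ℂ} (hw : w ∈ pts a) {I : Fin n → ι} {σ : (Fin n → ℂ) → ι → ℂ}
    (hσ : AnalyticAt ℂ σ 0) (hσ0 : σ 0 = w)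
    (hpt : ∀ᶠ y in 𝓝 w, y ∈ pts a → y = σ (fun k => y (I k) - w (I k)))
    (Q : MvPolynomial ι ℂ) (hQ : aeval a Q = 0) : ∀ᶠ u in 𝓝 0, eval (σ u) Q = 0 := by
  classical
  by_contra hne
  obtain ⟨b, B, hb, hB, hint⟩ := exists_noether ha hz
  have hcont : ∀ R : MvPolynomial ι ℂ, AnalyticAt ℂ (fun y : ι → ℂ => eval y R) (σ 0) := by
    intro R
    exact AnalyticOnNhd.eval_mvPolynomial R (σ 0) (Set.mem_univ _)
  have hh : AnalyticAt ℂ (fun u => eval (σ u) Q) 0 :=
    AnalyticAt.fun_comp (f := σ) (g := fun y : ι → ℂ => eval y Q) (hcont Q) hσ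
  have h0 : eval (σ 0) Q = 0 := by
    rw [hσ0]
    exact hw Q hQ
  obtain ⟨W, hW, hnull⟩ := exists_null hh h0 hne
  -- an open neighbourhood on which `σ` is analytic
  have hWσ : ∀ᶠ u in 𝓝 (0 : Fin n → ℂ), u ∈ W ∧ AnalyticAt ℂ σ u :=
    (Filter.eventually_of_mem hW fun u hu => hu).and hσ.eventually_analyticAt
  obtain ⟨W', hW'sub, hW'open, hW'0⟩ := mem_nhds_iff.1 hWσ
  have hκ : Filter.Tendsto (fun (y : ι → ℂ) (k : Fin n) => y (I k) - w (I k)) (𝓝 w) (𝓝 0) := by
    have hc : Continuous fun (y : ι → ℂ) (k : Fin n) => y (I k) - w (I k) := by fun_prop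
    have := hc.tendsto w
    have h00 : (fun k : Fin n => w (I k) - w (I k)) = 0 := by
      ext k
      simp
    rwa [h00] at this
  have hU : {y : ι → ℂ | (y ∈ pts a → y = σ (fun k => y (I k) - w (I k))) ∧
      (fun k => y (I k) - w (I k)) ∈ W'} ∈ 𝓝 w :=
    hpt.and (hκ (hW'open.mem_nhds hW'0))
  have himg := open_at hb hB hint hw hU
  set N : Set (Fin n → ℂ) := {u | u ∈ W' ∧ eval (σ u) Q = 0} with hN
  have hNnull : MeasureTheory.volume N = 0 := by
    refine MeasureTheory.measure_mono_null ?_ hnull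
    rintro u ⟨hu, hu'⟩
    exact ⟨(hW'sub hu).1, hu'⟩
  have hdiff : DifferentiableOn ℝ (fun (u : Fin n → ℂ) (j : Fin n) => eval (σ u) (B j)) N := by
    intro u hu
    have hσu : AnalyticAt ℂ σ u := (hW'sub hu.1).2
    have hF : AnalyticAt ℂ (fun (u : Fin n → ℂ) (j : Fin n) => eval (σ u) (B j)) u := by
      refine analyticAt_pi_iff.2 fun j => ?_
      exact AnalyticAt.fun_comp (f := σ) (g := fun y : ι → ℂ => eval y (B j))
        (AnalyticOnNhd.eval_mvPolynomial (B j) (σ u) (Set.mem_univ _)) hσu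
    exact (hF.differentiableAt.restrictScalars ℝ).differentiableWithinAt
  have h1 := MeasureTheory.addHaar_image_eq_zero_of_differentiableOn_of_addHaar_eq_zero
    MeasureTheory.volume hdiff hNnull
  have h2 : (fun (w' : ι → ℂ) (j : Fin n) => eval w' (B j)) '' (pts a ∩
      {y : ι → ℂ | (y ∈ pts a → y = σ (fun k => y (I k) - w (I k))) ∧
      (fun k => y (I k) - w (I k)) ∈ W'}) ⊆
      (fun (u : Fin n → ℂ) (j : Fin n) => eval (σ u) (B j)) '' N := by
    rintro _ ⟨y, ⟨hya, hy1, hy2⟩, rfl⟩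
    have hy := hy1 hya
    refine ⟨fun k => y (I k) - w (I k), ⟨hy2, ?_⟩, ?_⟩
    · rw [← hy]
      exact hya Q hQ
    · simp only
      rw [← hy]
  have h3 : MeasureTheory.volume ((fun (w' : ι → ℂ) (j : Fin n) => eval w' (B j)) '' (pts a ∩
      {y : ι → ℂ | (y ∈ pts a → y = σ (fun k => y (I k) - w (I k))) ∧
      (fun k => y (I k) - w (I k)) ∈ W'})) = 0 :=
    MeasureTheory.measure_mono_null h2 h1
  exact (MeasureTheory.Measure.measure_pos_of_mem_nhds MeasureTheory.volume himg).ne' h3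

theorem exists_chart [Fintype ι] {a : ι → K} (ha : IntermediateField.adjoin ℂ (Set.range a) = ⊤)
    {n : ℕ} {z : Fin n → K} (hz : IsTranscendenceBasis ℂ z) {c : ℕ}
    (hcn : c + n = Fintype.card ι) {f : Fin c → MvPolynomial ι ℂ} (hf : ∀ j, aeval a (f j) = 0)
    {w : ι → ℂ} (hw : w ∈ pts a)
    (hli : LinearIndependent ℂ fun (j : Fin c) (i : ι) => eval w (pderiv i (f j))) :
    ∃ (I : Fin n → ι) (σ : (Fin n → ℂ) → ι → ℂ), AnalyticAt ℂ σ 0 ∧ σ 0 = w ∧
      (∀ᶠ u in 𝓝 0, σ u ∈ pts a ∧ ∀ k, σ u (I k) = w (I k) + u k) ∧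
      (∀ᶠ y in 𝓝 w, y ∈ pts a → y = σ (fun k => y (I k) - w (I k))) ∧
      ∀ Q : MvPolynomial ι ℂ, aeval a Q ≠ 0 → ¬ ∀ᶠ u in 𝓝 0, eval (σ u) Q = 0 := by
  obtain ⟨I, σ, hσ, hσ0, hev, hnear⟩ := exists_implicit hcn (fun j => hw (f j) (hf j)) hli
  have hpt : ∀ᶠ y in 𝓝 w, y ∈ pts a → y = σ (fun k => y (I k) - w (I k)) := by
    filter_upwards [hnear] with y hy hya
    exact hy fun j => hya (f j) (hf j)
  have key := Aff_key ha hz hw hσ hσ0 hpt
  have hall : ∀ᶠ u in 𝓝 (0 : Fin n → ℂ), σ u ∈ pts a := by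
    obtain ⟨S, hS⟩ := IsNoetherian.noetherian
      (RingHom.ker ((aeval a : MvPolynomial ι ℂ →ₐ[ℂ] K) : MvPolynomial ι ℂ →+* K))
    have h1 : ∀ᶠ u in 𝓝 (0 : Fin n → ℂ), ∀ g ∈ S, eval (σ u) g = 0 := by
      rw [Filter.eventually_all_finset]
      intro g hg
      refine key g ?_
      have : g ∈ RingHom.ker ((aeval a : MvPolynomial ι ℂ →ₐ[ℂ] K) : MvPolynomial ι ℂ →+* K) := by
        rw [← hS]
        exact Submodule.subset_span hg
      simpa [RingHom.mem_ker] using this
    filter_upwards [h1] with u hu Q hQ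
    have hle : RingHom.ker ((aeval a : MvPolynomial ι ℂ →ₐ[ℂ] K) : MvPolynomial ι ℂ →+* K) ≤
        RingHom.ker (eval (σ u)) := by
      rw [← hS]
      refine Ideal.span_le.2 fun g hg => ?_
      exact hu g hg
    exact hle (by simpa [RingHom.mem_ker] using hQ)
  refine ⟨I, σ, hσ, hσ0, ?_, hpt, ?_⟩
  · filter_upwards [hall, hev] with u hu1 hu2
    exact ⟨hu1, hu2.2⟩
  · intro Q hQ hz0
    refine not_eventually_zero ha hz hw hQ ?_
    have hκ : Filter.Tendsto (fun (y : ι → ℂ) (k : Fin n) => y (I k) - w (I k)) (𝓝 w) (𝓝 0) := by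
      have hc : Continuous fun (y : ι → ℂ) (k : Fin n) => y (I k) - w (I k) := by fun_prop
      have := hc.tendsto w
      have h00 : (fun k : Fin n => w (I k) - w (I k)) = 0 := by
        ext k
        simp
      rwa [h00] at this
    filter_upwards [hpt, hκ.eventually hz0] with y hy1 hy2 hya
    have hy := hy1 hya
    rw [hy]
    exact hy2

end Pool.Agent.H13.SM
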