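import Pool.Agent.H13.SM.Open

/-!
# A function which is not zero does not vanish near a point

PROOF of `not_eventually_zero`.  Take `b, B` as in `exists_noether`.  Let `ζ = aeval a Q ≠ 0`, integral
over `R' = Algebra.adjoin ℂ (Set.range b) ≃ MvPolynomial (Fin n) ℂ`, hence algebraic, so there is
`q : Polynomial R'` with `q.coeff 0 ≠ 0` and `aeval ζ q = 0`
(`IsAlgebraic.exists_nonzero_coeff_and_aeval_eq_zero`); transport it to
`q : Polynomial (MvPolynomial (Fin n) ℂ)` with `q.coeff 0 ≠ 0` and `(q.map (aeval b)).eval ζ = 0`.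
(Or take `μ` of `exists_monic`, `μ = X ^ k * q` with `q.coeff 0 ≠ 0`; `ζ ^ k * q(ζ) = 0`.)
If `Q = 0` on the points of the variety in the neighbourhood `U` of `w` then by `root_at`
`eval y (q.coeff 0) = 0` for all `y` in the image of `pts a ∩ U`, a neighbourhood of `y₀` by `open_at`.
A polynomial which vanishes in a neighbourhood of a point is zero (identity theorem
`AnalyticOnNhd.eq_of_eventuallyEq` and `MvPolynomial.funext`), contradiction.
-/

open MvPolynomial Topology

noncomputable section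

namespace Pool.Agent.H13.SM

variable {ι K : Type} [Field K] [Algebra ℂ K]

theorem eq_zero_of_eventually {n : ℕ} {p : MvPolynomial (Fin n) ℂ} {y₀ : Fin n → ℂ}
    (h : ∀ᶠ y in 𝓝 y₀, eval y p = 0) : p = 0 := by
  have h1 : (fun y : Fin n → ℂ => eval y p) = fun y => eval y (0 : MvPolynomial (Fin n) ℂ) := by
    refine AnalyticOnNhd.eq_of_eventuallyEq (AnalyticOnNhd.eval_mvPolynomial p)
      (AnalyticOnNhd.eval_mvPolynomial 0) (z₀ := y₀) ?_
    filter_upwards [h] with y hy
    rw [hy, map_zero]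
  exact MvPolynomial.funext fun x => congrFun h1 x

theorem not_eventually_zero [Finite ι] {a : ι → K}
    (ha : IntermediateField.adjoin ℂ (Set.range a) = ⊤) {n : ℕ} {z : Fin n → K}
    (hz : IsTranscendenceBasis ℂ z) {w : ι → ℂ} (hw : w ∈ pts a) {Q : MvPolynomial ι ℂ}
    (hQ : aeval a Q ≠ 0) : ¬ ∀ᶠ y in 𝓝 w, y ∈ pts a → eval y Q = 0 := by
  intro h
  obtain ⟨b, B, hb, hB, hint⟩ := exists_noether ha hz
  obtain ⟨p, hp, hp0⟩ := exists_monic hint Q
  have hpne : p ≠ 0 := hp.ne_zero
  obtain ⟨q, hq⟩ : (Polynomial.X : Polynomial (MvPolynomial (Fin n) ℂ)) ^ p.natTrailingDegree ∣ p := by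
    rw [Polynomial.X_pow_dvd_iff]
    intro d hd
    exact Polynomial.coeff_eq_zero_of_lt_natTrailingDegree hd
  have hq0 : q.coeff 0 ≠ 0 := by
    have h1 : p.coeff p.natTrailingDegree ≠ 0 :=
      Polynomial.coeff_natTrailingDegree_ne_zero.mpr hpne
    intro h2
    apply h1
    have h3 : p.coeff (0 + p.natTrailingDegree) =
        (Polynomial.X ^ p.natTrailingDegree * q).coeff (0 + p.natTrailingDegree) := by
      rw [← hq]
    rw [Polynomial.coeff_X_pow_mul, h2, zero_add] at h3
    exact h3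
  have hqroot : (q.map (aeval b : MvPolynomial (Fin n) ℂ →ₐ[ℂ] K).toRingHom).eval (aeval a Q) = 0 := by
    rw [hq, Polynomial.map_mul, Polynomial.map_pow, Polynomial.map_X, Polynomial.eval_mul,
      Polynomial.eval_pow, Polynomial.eval_X] at hp0
    exact (mul_eq_zero.mp hp0).resolve_left (pow_ne_zero _ hQ)
  apply hq0
  apply eq_zero_of_eventually (y₀ := fun j => eval w (B j))
  have hU : {y : ι → ℂ | y ∈ pts a → eval y Q = 0} ∈ 𝓝 w := h
  filter_upwards [open_at hb hB hint hw hU] with y hy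
  obtain ⟨w', ⟨hw', hU'⟩, rfl⟩ := hy
  have h1 := root_at hB hqroot hw'
  rw [hU' hw', ← Polynomial.coeff_zero_eq_eval_zero, Polynomial.coeff_map] at h1
  exact h1

end Pool.Agent.H13.SM
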