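import Pool.Agent.H13.SM.Noether

/-!
# The projection is proper with finite fibres

PROOF.  For every `i` let `p i` be the monic polynomial of `exists_monic hint (X i)`.  By `root_at` (with
`Z = X i`), for every point `w` of the variety `w i` is a root of `(p i).map (eval y)`, `y j = eval w (B
j)`, a monic polynomial.

`finite_fiber`: for fixed `y` there are finitely many roots for each `i` (`Set.Finite.pi`,
`Polynomial.finite_setOf_isRoot` or `Multiset`/`rootSet`).

`bdd_near`: a root `t` of a monic polynomial `t^d + c_{d-1} t^{d-1} + ... + c_0` satisfies `‖t‖ ≤ 1 +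
∑ ‖c_k‖` (if `‖t‖ > 1` divide `t^d = -∑ c_k t^k` by `t^{d-1}`; or `Polynomial.IsRoot.norm_lt_cauchyBound`),
and the `c_k` are continuous functions of `y`, so they are bounded near `y₀`; take the maximum over `i`.
-/

open MvPolynomial Topology

noncomputable section

namespace Pool.Agent.H13.SM

variable {ι K : Type} [Field K] [Algebra ℂ K]

private theorem Bdd_root {q : Polynomial ℂ} (hq : q.Monic) {t : ℂ} (ht : q.eval t = 0) :
    ‖t‖ ≤ ∑ k ∈ Finset.range q.natDegree, ‖q.coeff k‖ + 1 := by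
  have h1 := Polynomial.IsRoot.norm_lt_cauchyBound hq.ne_zero ht
  have h2 : Polynomial.cauchyBound q ≤ ∑ k ∈ Finset.range q.natDegree, ‖q.coeff k‖₊ + 1 := by
    unfold Polynomial.cauchyBound
    rw [hq.leadingCoeff, nnnorm_one, div_one]
    gcongr
    exact Finset.sup_le fun k hk => Finset.single_le_sum (f := fun k => ‖q.coeff k‖₊) (fun _ _ => zero_le) hk
  have h3 : ‖t‖₊ ≤ ∑ k ∈ Finset.range q.natDegree, ‖q.coeff k‖₊ + 1 := h1.le.trans h2
  have h4 : (‖t‖₊ : ℝ) ≤ ((∑ k ∈ Finset.range q.natDegree, ‖q.coeff k‖₊ + 1 : NNReal) : ℝ) := by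
    exact_mod_cast h3
  rw [NNReal.coe_add, NNReal.coe_sum, NNReal.coe_one] at h4
  exact h4

theorem finite_fiber [Finite ι] {a : ι → K} {n : ℕ} {b : Fin n → K}
    {B : Fin n → MvPolynomial ι ℂ} (hB : ∀ j, aeval a (B j) = b j)
    (hint : ∀ i, IsIntegral (Algebra.adjoin ℂ (Set.range b)) (a i)) (y₀ : Fin n → ℂ) :
    {w | w ∈ pts a ∧ ∀ j, eval w (B j) = y₀ j}.Finite := by
  choose p hpm hp using fun i => exists_monic hint (X i : MvPolynomial ι ℂ)
  have hfin : {w : ι → ℂ | ∀ i, w i ∈ {t : ℂ | ((p i).map (eval y₀)).IsRoot t}}.Finite :=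
    Set.Finite.pi' fun i => Polynomial.finite_setOfPred_isRoot ((hpm i).map _).ne_zero
  refine hfin.subset ?_
  rintro w ⟨hw, hwy⟩ i
  have h1 := root_at hB (hp i) hw
  rw [eval_X] at h1
  have h2 : (fun j => eval w (B j)) = y₀ := funext hwy
  rw [h2] at h1
  exact h1

theorem bdd_near [Finite ι] {a : ι → K} {n : ℕ} {b : Fin n → K}
    {B : Fin n → MvPolynomial ι ℂ} (hB : ∀ j, aeval a (B j) = b j)
    (hint : ∀ i, IsIntegral (Algebra.adjoin ℂ (Set.range b)) (a i)) (y₀ : Fin n → ℂ) :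
    ∃ C : ℝ, ∀ᶠ y in 𝓝 y₀, ∀ w ∈ pts a, (∀ j, eval w (B j) = y j) → ∀ i, ‖w i‖ ≤ C := by
  choose p hpm hp using fun i => exists_monic hint (X i : MvPolynomial ι ℂ)
  cases nonempty_fintype ι
  have hcont : ∀ i, Continuous fun y : Fin n → ℂ =>
      ∑ k ∈ Finset.range (p i).natDegree, ‖eval y ((p i).coeff k)‖ + 1 := by
    intro i
    exact (continuous_finsetSum _ fun k _ => (MvPolynomial.continuous_eval _).norm).add continuous_const
  have hS : ∀ i, 0 ≤ ∑ k ∈ Finset.range (p i).natDegree, ‖eval y₀ ((p i).coeff k)‖ + 1 := by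
    intro i
    positivity
  refine ⟨∑ i, (∑ k ∈ Finset.range (p i).natDegree, ‖eval y₀ ((p i).coeff k)‖ + 1 + 1), ?_⟩
  have hev : ∀ᶠ y in 𝓝 y₀, ∀ i, ∑ k ∈ Finset.range (p i).natDegree, ‖eval y ((p i).coeff k)‖ + 1 <
      ∑ k ∈ Finset.range (p i).natDegree, ‖eval y₀ ((p i).coeff k)‖ + 1 + 1 := by
    rw [Filter.eventually_all]
    intro i
    exact (hcont i).continuousAt.eventually_lt continuousAt_const (by simp)
  filter_upwards [hev] with y hy w hw hwy i
  have h1 := root_at hB (hp i) hw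
  rw [eval_X] at h1
  have h2 : (fun j => eval w (B j)) = y := funext hwy
  rw [h2] at h1
  have h3 := Bdd_root ((hpm i).map (eval y)) h1
  rw [(hpm i).natDegree_map] at h3
  simp only [Polynomial.coeff_map] at h3
  refine (h3.trans (hy i).le).trans ?_
  exact Finset.single_le_sum (f := fun i => ∑ k ∈ Finset.range (p i).natDegree, ‖eval y₀ ((p i).coeff k)‖ + 1 + 1)
    (fun i _ => by have := hS i; positivity) (Finset.mem_univ i)

end Pool.Agent.H13.SM
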