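import Pool.Agent.H13.SM.Noether

/-!
# Lying over

PROOF of `exists_lift`.  Let `R = MvPolynomial (Fin n) ℂ`, which maps to
`A = Algebra.adjoin ℂ (Set.range a)` by `X j ↦ b j`; this map is injective and integral
(`exists_monic`).  `ζ = aeval a Z` is an element of `A`, `μ = minpoly R ζ`: it is monic and, `R` being
integrally closed, it divides each polynomial with root `ζ`, so `AdjoinRoot μ → A` is injective.

Let `y', T'` satisfy `(μ.map (eval y')).eval T' = 0`.  `AdjoinRoot.lift` gives a ring hom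
`χ : AdjoinRoot μ →+* ℂ` with `χ (X j) = y' j`, `χ root = T'` and which is the identity on `ℂ`.  It is
surjective, so its kernel `M` is a maximal ideal.  By `Ideal.exists_ideal_over_maximal_of_isIntegral`
there is a maximal ideal `Q` of `A` over `M`.  `A ⧸ Q` is a field and a `ℂ`-algebra of finite type, so
it is finite over `ℂ` and `algebraMap ℂ (A ⧸ Q)` is bijective.  This gives `φ : A →ₐ[ℂ] ℂ` with kernel
`Q`, and `φ s = χ s` for `s` in `AdjoinRoot μ`.  The point of `φ` (`exists_pt_of_algHom`) has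
`eval w (B j) = φ (b j) = y' j` and `eval w Z = φ ζ = T'`.
-/

open MvPolynomial

noncomputable section

namespace Pool.Agent.H13.SM

variable {ι K : Type} [Field K] [Algebra ℂ K]

/-- A maximal ideal of a `ℂ`-algebra of finite type is the kernel of an algebra hom to `ℂ`. -/
private theorem Lift_exists_algHom {A : Type} [CommRing A] [Algebra ℂ A] [Algebra.FiniteType ℂ A]
    (Q : Ideal A) [hQ : Q.IsMaximal] : ∃ φ : A →ₐ[ℂ] ℂ, ∀ x, φ x = 0 ↔ x ∈ Q := by
  let : Field (A ⧸ Q) := Ideal.Quotient.field Q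
  have : Module.Finite ℂ (A ⧸ Q) := finite_of_finite_type_of_isJacobsonRing ℂ (A ⧸ Q)
  have : Algebra.IsIntegral ℂ (A ⧸ Q) := Algebra.IsIntegral.of_finite ℂ (A ⧸ Q)
  have hbij : Function.Bijective (algebraMap ℂ (A ⧸ Q)) :=
    IsAlgClosed.algebraMap_bijective_of_isIntegral
  let e : ℂ ≃ₐ[ℂ] (A ⧸ Q) := AlgEquiv.ofBijective (Algebra.ofId ℂ (A ⧸ Q)) hbij
  refine ⟨(e.symm : (A ⧸ Q) →ₐ[ℂ] ℂ).comp (Ideal.Quotient.mkₐ ℂ Q), fun x => ?_⟩
  have h1 : ((e.symm : (A ⧸ Q) →ₐ[ℂ] ℂ).comp (Ideal.Quotient.mkₐ ℂ Q)) x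
      = e.symm (Ideal.Quotient.mk Q x) := rfl
  rw [h1, map_eq_zero_iff _ e.symm.injective, Ideal.Quotient.eq_zero_iff_mem]

/-- There is a monic polynomial `μ` for `Z` such that each root of a specialisation of `μ` is
attained at a point of the variety. -/
theorem exists_lift [Finite ι] {a : ι → K} {n : ℕ} {b : Fin n → K} (hb : AlgebraicIndependent ℂ b)
    {B : Fin n → MvPolynomial ι ℂ} (hB : ∀ j, aeval a (B j) = b j)
    (hint : ∀ i, IsIntegral (Algebra.adjoin ℂ (Set.range b)) (a i)) (Z : MvPolynomial ι ℂ) :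
    ∃ μ : Polynomial (MvPolynomial (Fin n) ℂ), μ.Monic ∧
      (μ.map (aeval b : MvPolynomial (Fin n) ℂ →ₐ[ℂ] K).toRingHom).eval (aeval a Z) = 0 ∧
      ∀ (y' : Fin n → ℂ) (T' : ℂ), (μ.map (eval y')).eval T' = 0 →
        ∃ w ∈ pts a, (∀ j, eval w (B j) = y' j) ∧ eval w Z = T' := by
  classical
  have hbA : ∀ j, b j ∈ Algebra.adjoin ℂ (Set.range a) := fun j => by
    rw [← hB j]; exact aeval_mem_adjoin a (B j)
  -- the ring hom from R to A
  let ρ : MvPolynomial (Fin n) ℂ →ₐ[ℂ] Algebra.adjoin ℂ (Set.range a) :=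
    aeval (fun j => (⟨b j, hbA j⟩ : Algebra.adjoin ℂ (Set.range a)))
  have hρ : (Algebra.adjoin ℂ (Set.range a)).val.comp ρ = aeval b := by
    apply MvPolynomial.algHom_ext
    intro j
    simp [ρ]
  have hρ' : ∀ q, ((ρ q : Algebra.adjoin ℂ (Set.range a)) : K) = aeval b q := fun q => by
    rw [← hρ]; rfl
  have hinj : Function.Injective ρ := by
    intro q q' h
    apply hb
    rw [← hρ' q, ← hρ' q', h]
  let alg : Algebra (MvPolynomial (Fin n) ℂ) (Algebra.adjoin ℂ (Set.range a)) :=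
    ρ.toRingHom.toAlgebra
  have halg : ∀ q, algebraMap (MvPolynomial (Fin n) ℂ) (Algebra.adjoin ℂ (Set.range a)) q = ρ q :=
    fun q => rfl
  have : FaithfulSMul (MvPolynomial (Fin n) ℂ) (Algebra.adjoin ℂ (Set.range a)) :=
    (faithfulSMul_iff_algebraMap_injective _ _).2 hinj
  -- integrality
  have hI : ∀ x : Algebra.adjoin ℂ (Set.range a), IsIntegral (MvPolynomial (Fin n) ℂ) x := by
    intro x
    obtain ⟨x, hx⟩ := x
    obtain ⟨Q, hQ⟩ : ∃ Q : MvPolynomial ι ℂ, aeval a Q = x := by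
      rw [Algebra.adjoin_range_eq_range_aeval] at hx
      exact hx
    obtain ⟨p, hp, hp0⟩ := exists_monic hint Q
    refine ⟨p, hp, ?_⟩
    apply Subtype.coe_injective
    have h1 := Polynomial.hom_eval₂ p (algebraMap (MvPolynomial (Fin n) ℂ)
      (Algebra.adjoin ℂ (Set.range a))) (Algebra.adjoin ℂ (Set.range a)).val.toRingHom ⟨x, hx⟩
    have h2 : (Algebra.adjoin ℂ (Set.range a)).val.toRingHom.comp
        (algebraMap (MvPolynomial (Fin n) ℂ) (Algebra.adjoin ℂ (Set.range a)))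
        = (aeval b : MvPolynomial (Fin n) ℂ →ₐ[ℂ] K).toRingHom := by
      ext q
      · exact hρ' _
      · exact hρ' _
    rw [h2] at h1
    rw [Polynomial.eval_map, hQ] at hp0
    exact h1.trans hp0
  have : Algebra.IsIntegral (MvPolynomial (Fin n) ℂ) (Algebra.adjoin ℂ (Set.range a)) := ⟨hI⟩
  let ζ : Algebra.adjoin ℂ (Set.range a) := ⟨aeval a Z, aeval_mem_adjoin a Z⟩
  let μ : Polynomial (MvPolynomial (Fin n) ℂ) := minpoly (MvPolynomial (Fin n) ℂ) ζ
  have hμ : μ.Monic := minpoly.monic (hI ζ)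
  have hμ0 : μ.eval₂ (algebraMap (MvPolynomial (Fin n) ℂ) (Algebra.adjoin ℂ (Set.range a))) ζ = 0 :=
    minpoly.aeval (MvPolynomial (Fin n) ℂ) ζ
  refine ⟨μ, hμ, ?_, ?_⟩
  · have h1 := Polynomial.hom_eval₂ μ (algebraMap (MvPolynomial (Fin n) ℂ)
      (Algebra.adjoin ℂ (Set.range a))) (Algebra.adjoin ℂ (Set.range a)).val.toRingHom ζ
    have h2 : (Algebra.adjoin ℂ (Set.range a)).val.toRingHom.comp
        (algebraMap (MvPolynomial (Fin n) ℂ) (Algebra.adjoin ℂ (Set.range a)))
        = (aeval b : MvPolynomial (Fin n) ℂ →ₐ[ℂ] K).toRingHom := by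
      ext q
      · exact hρ' _
      · exact hρ' _
    rw [h2, hμ0, map_zero] at h1
    rw [Polynomial.eval_map]
    exact h1.symm
  · intro y' T' hT
    rw [Polynomial.eval_map] at hT
    let χ : AdjoinRoot μ →+* ℂ := AdjoinRoot.lift (eval y') T' hT
    let θ : AdjoinRoot μ →+* Algebra.adjoin ℂ (Set.range a) :=
      AdjoinRoot.lift (algebraMap (MvPolynomial (Fin n) ℂ) (Algebra.adjoin ℂ (Set.range a))) ζ hμ0
    have hχof : ∀ q, χ (AdjoinRoot.of μ q) = eval y' q := fun q => AdjoinRoot.lift_of hT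
    have hχroot : χ (AdjoinRoot.root μ) = T' := AdjoinRoot.lift_root hT
    have hθof : ∀ q, θ (AdjoinRoot.of μ q) = ρ q := fun q => AdjoinRoot.lift_of hμ0
    have hθroot : θ (AdjoinRoot.root μ) = ζ := AdjoinRoot.lift_root hμ0
    have hsurj : Function.Surjective χ := by
      intro c
      refine ⟨AdjoinRoot.of μ (C c), ?_⟩
      rw [hχof, eval_C]
    have hM : (RingHom.ker χ).IsMaximal := RingHom.ker_isMaximal_of_surjective χ hsurj
    let algθ : Algebra (AdjoinRoot μ) (Algebra.adjoin ℂ (Set.range a)) := θ.toAlgebra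
    have : IsScalarTower (MvPolynomial (Fin n) ℂ) (AdjoinRoot μ)
        (Algebra.adjoin ℂ (Set.range a)) := by
      apply IsScalarTower.of_algebraMap_eq
      intro q
      exact (hθof q).symm
    have : Algebra.IsIntegral (AdjoinRoot μ) (Algebra.adjoin ℂ (Set.range a)) :=
      Algebra.IsIntegral.tower_top (MvPolynomial (Fin n) ℂ)
    have hker : RingHom.ker (algebraMap (AdjoinRoot μ) (Algebra.adjoin ℂ (Set.range a)))
        ≤ RingHom.ker χ := by
      intro s hs
      obtain ⟨p, rfl⟩ := AdjoinRoot.mk_surjective s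
      have h1 : Polynomial.aeval ζ p = 0 := by
        have h2 : θ (AdjoinRoot.mk μ p) = 0 := hs
        rwa [AdjoinRoot.lift_mk] at h2
      have h3 : μ ∣ p := minpoly.isIntegrallyClosed_dvd (hI ζ) h1
      have h4 : AdjoinRoot.mk μ p = 0 := AdjoinRoot.mk_eq_zero.2 h3
      rw [h4]
      exact Ideal.zero_mem _
    obtain ⟨Q, hQ, hQM⟩ := Ideal.exists_ideal_over_maximal_of_isIntegral
      (S := Algebra.adjoin ℂ (Set.range a)) (RingHom.ker χ) hker
    have := hQ
    have : Algebra.FiniteType ℂ (Algebra.adjoin ℂ (Set.range a)) :=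
      (Subalgebra.fg_iff_finiteType _).1 (Subalgebra.fg_def.2 ⟨_, Set.finite_range a, rfl⟩)
    obtain ⟨φ, hφ⟩ := Lift_exists_algHom (A := Algebra.adjoin ℂ (Set.range a)) Q
    have hφθ : ∀ s : AdjoinRoot μ, φ (θ s) = χ s := by
      intro s
      have h1 : s - AdjoinRoot.of μ (C (χ s)) ∈ RingHom.ker χ := by
        rw [RingHom.mem_ker, map_sub, hχof, eval_C, sub_self]
      rw [← hQM, Ideal.mem_comap] at h1
      have h2 := (hφ _).2 h1
      have h3 : algebraMap (AdjoinRoot μ) (Algebra.adjoin ℂ (Set.range a))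
          (s - AdjoinRoot.of μ (C (χ s))) = θ s - algebraMap ℂ _ (χ s) := by
        show θ _ = _
        rw [map_sub, hθof]
        congr 1
        show ρ (C (χ s)) = _
        rw [← MvPolynomial.algebraMap_eq, AlgHom.commutes]
      rw [h3, map_sub, AlgHom.commutes, sub_eq_zero] at h2
      exact h2
    obtain ⟨w, hw, hwφ⟩ := exists_pt_of_algHom a φ
    refine ⟨w, hw, fun j => ?_, ?_⟩
    · rw [hwφ]
      have h1 : (⟨aeval a (B j), aeval_mem_adjoin a (B j)⟩ : Algebra.adjoin ℂ (Set.range a))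
          = θ (AdjoinRoot.of μ (X j)) := by
        rw [hθof]
        apply Subtype.coe_injective
        show aeval a (B j) = ((ρ (X j) : Algebra.adjoin ℂ (Set.range a)) : K)
        rw [hρ', aeval_X]
        exact hB j
      rw [h1, hφθ, hχof, eval_X]
    · rw [hwφ]
      have h1 : (⟨aeval a Z, aeval_mem_adjoin a Z⟩ : Algebra.adjoin ℂ (Set.range a))
          = θ (AdjoinRoot.root μ) := hθroot.symm
      rw [h1, hφθ, hχroot]

end Pool.Agent.H13.SM
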