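import Pool.Agent.H13.SM.Pts

/-!
# Noether normalisation

PROOF.  `A = Algebra.adjoin ℂ (Set.range a)` is an algebra of finite type (`Subalgebra.fg_adjoin_...`,
`Subalgebra.fg_iff_finiteType`) and is nontrivial, so by `exists_finite_inj_algHom_of_fg` there are
`s` and `g : MvPolynomial (Fin s) ℂ →ₐ[ℂ] A` injective and finite.  Let `b' j = g (X j)`, an
algebraically independent family of `K` (`g` and the inclusion are injective).  Each element of `A` is
integral over the range of `g`, the algebra generated by the `b' j` (`RingHom.Finite.to_isIntegral`).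
`K = IntermediateField.adjoin ℂ (Set.range a)` is algebraic over `IntermediateField.adjoin ℂ (Set.range
b')`, since all `a i` are.  So `b'` is a transcendence basis of `K` and `s = n` by
`IsTranscendenceBasis.cardinalMk_eq` (or `lift_cardinalMk_eq_trdeg`).  Write `b' j = aeval a (B j)`.
-/

open MvPolynomial

noncomputable section

namespace Pool.Agent.H13.SM

variable {ι K : Type} [Field K] [Algebra ℂ K]

/-- The surjection from polynomials to the adjoined algebra. -/
private def Noether_phi {n : ℕ} (b : Fin n → K) :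
    MvPolynomial (Fin n) ℂ →ₐ[ℂ] Algebra.adjoin ℂ (Set.range b) :=
  (aeval b : MvPolynomial (Fin n) ℂ →ₐ[ℂ] K).codRestrict (Algebra.adjoin ℂ (Set.range b)) (by
    intro x
    rw [Algebra.adjoin_range_eq_range_aeval]
    exact ⟨x, rfl⟩)

private theorem Noether_phi_coe {n : ℕ} (b : Fin n → K) (x : MvPolynomial (Fin n) ℂ) :
    (Noether_phi b x : K) = aeval b x := rfl

private theorem Noether_phi_surj {n : ℕ} (b : Fin n → K) : Function.Surjective (Noether_phi b) := by
  rintro ⟨y, hy⟩
  have h := hy
  rw [Algebra.adjoin_range_eq_range_aeval] at h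
  obtain ⟨x, hx⟩ := h
  exact ⟨x, Subtype.ext hx⟩

private theorem Noether_algebraic [Finite ι] {a : ι → K}
    (ha : IntermediateField.adjoin ℂ (Set.range a) = ⊤) {s : ℕ} (b : Fin s → K)
    (hb : ∀ i, IsIntegral (Algebra.adjoin ℂ (Set.range b)) (a i)) :
    Algebra.IsAlgebraic (Algebra.adjoin ℂ (Set.range b)) K := by
  constructor
  intro x
  have hx : x ∈ IntermediateField.adjoin ℂ (Set.range a) := by
    rw [ha]; exact IntermediateField.mem_top
  induction hx using IntermediateField.adjoin_induction with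
  | mem y hy =>
    obtain ⟨i, rfl⟩ := hy
    exact (hb i).isAlgebraic
  | algebraMap y =>
    have h1 : algebraMap ℂ K y =
        algebraMap (Algebra.adjoin ℂ (Set.range b)) K (algebraMap ℂ (Algebra.adjoin ℂ (Set.range b)) y) := rfl
    rw [h1]
    exact isAlgebraic_algebraMap _
  | add y z _ _ hy hz => exact hy.add hz
  | inv y _ hy => exact hy.inv
  | mul y z _ _ hy hz => exact hy.mul hz

theorem exists_noether [Finite ι] {a : ι → K}
    (ha : IntermediateField.adjoin ℂ (Set.range a) = ⊤) {n : ℕ} {z : Fin n → K}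
    (hz : IsTranscendenceBasis ℂ z) :
    ∃ (b : Fin n → K) (B : Fin n → MvPolynomial ι ℂ), AlgebraicIndependent ℂ b ∧
      (∀ j, aeval a (B j) = b j) ∧ ∀ i, IsIntegral (Algebra.adjoin ℂ (Set.range b)) (a i) := by
  set A := Algebra.adjoin ℂ (Set.range a) with hA
  have : Algebra.FiniteType ℂ A := by
    refine (Subalgebra.fg_iff_finiteType _).1 ?_
    have h := Subalgebra.fg_adjoin_finset (R := ℂ) (Set.finite_range a).toFinset
    rwa [Set.Finite.coe_toFinset] at h
  obtain ⟨s, g, ginj, gint⟩ := exists_integral_inj_algHom_of_fg ℂ A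
  set b' : Fin s → K := fun j => (g (X j) : K) with hb'
  have haev : (aeval b' : MvPolynomial (Fin s) ℂ →ₐ[ℂ] K) = A.val.comp g := by
    refine MvPolynomial.algHom_ext fun j => ?_
    rw [aeval_X]; rfl
  have hind : AlgebraicIndependent ℂ b' := by
    show Function.Injective (aeval b' : MvPolynomial (Fin s) ℂ →ₐ[ℂ] K)
    rw [haev]
    exact Subtype.val_injective.comp ginj
  have hint : ∀ i, IsIntegral (Algebra.adjoin ℂ (Set.range b')) (a i) := by
    intro i
    have hai : a i ∈ A := Algebra.subset_adjoin ⟨i, rfl⟩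
    obtain ⟨p, hp1, hp2⟩ := gint ⟨a i, hai⟩
    refine ⟨p.map (Noether_phi b').toRingHom, hp1.map _, ?_⟩
    rw [Polynomial.eval₂_map]
    have h1 := congrArg (fun x : A => (x : K)) hp2
    have h2 : A.val.toRingHom (Polynomial.eval₂ g.toRingHom ⟨a i, hai⟩ p) = 0 := h1
    rw [Polynomial.hom_eval₂] at h2
    have h3 : A.val.toRingHom.comp g.toRingHom =
        (algebraMap (Algebra.adjoin ℂ (Set.range b')) K).comp (Noether_phi b').toRingHom := by
      refine RingHom.ext fun x => ?_
      have h4 : (aeval b' x : K) = A.val (g x) := by rw [haev]; rfl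
      show A.val (g x) = (Noether_phi b' x : K)
      rw [Noether_phi_coe, h4]
    rw [← h3]
    exact h2
  have hbas : IsTranscendenceBasis ℂ b' :=
    hind.isTranscendenceBasis_iff_isAlgebraic.2 (Noether_algebraic ha b' hint)
  have hsn : s = n := by
    have h1 := hbas.cardinalMk_eq hz
    simpa using h1
  subst hsn
  have hB : ∀ j, ∃ Q : MvPolynomial ι ℂ, aeval a Q = b' j := by
    intro j
    have h1 : b' j ∈ A := (g (X j)).2
    rw [hA, Algebra.adjoin_range_eq_range_aeval] at h1
    exact h1
  choose B hB using hB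
  exact ⟨b', B, hind, hB, hint⟩

/-- The polynomial form of integrality: `aeval a Z` is a root of a monic polynomial whose
coefficients are polynomials in `b`. -/
theorem exists_monic {a : ι → K} {n : ℕ} {b : Fin n → K}
    (hint : ∀ i, IsIntegral (Algebra.adjoin ℂ (Set.range b)) (a i)) (Z : MvPolynomial ι ℂ) :
    ∃ p : Polynomial (MvPolynomial (Fin n) ℂ), p.Monic ∧
      (p.map (aeval b : MvPolynomial (Fin n) ℂ →ₐ[ℂ] K).toRingHom).eval (aeval a Z) = 0 := by
  set C₀ := Algebra.adjoin ℂ (Set.range b) with hC₀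
  have hZ : IsIntegral C₀ (aeval a Z) := by
    have h1 : aeval a Z ∈ Algebra.adjoin ℂ (Set.range a) := aeval_mem_adjoin a Z
    have h2 : Algebra.adjoin ℂ (Set.range a) ≤ (integralClosure C₀ K).restrictScalars ℂ := by
      refine Algebra.adjoin_le ?_
      rintro _ ⟨i, rfl⟩
      exact hint i
    exact h2 h1
  obtain ⟨p, hp1, hp2⟩ := hZ
  have hlift : p ∈ Polynomial.lifts (Noether_phi b).toRingHom := by
    rw [Polynomial.lifts_iff_coeff_lifts]
    intro k
    exact Noether_phi_surj b (p.coeff k)
  obtain ⟨P, hP1, -, hP2⟩ := Polynomial.lifts_and_natDegree_eq_and_monic hlift hp1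
  refine ⟨P, hP2, ?_⟩
  have h3 : (aeval b : MvPolynomial (Fin n) ℂ →ₐ[ℂ] K).toRingHom =
      (algebraMap C₀ K).comp (Noether_phi b).toRingHom := rfl
  rw [h3, ← Polynomial.map_map, hP1, Polynomial.eval_map]
  exact hp2

end Pool.Agent.H13.SM
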