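import Pool.Agent.H13.SM.Lift
import Pool.Agent.H13.SM.Bdd

/-!
# The projection is open

PROOF of `exists_small_root`.  All roots with `ε ≤ ‖t‖` would give `ε ^ d ≤ ∏ ‖t‖ = ‖p.coeff 0‖`
(`Polynomial.coeff_zero_eq_prod_roots_of_monic_of_splits` or similar, `d = p.natDegree`).

PROOF of `exists_separating`.  For every point `w'` of the finite set `F` with `w' ≠ w` choose `i` with
`w' i ≠ w i` and let `u w' = C (w i - w' i)⁻¹ * (X i - C (w' i))`: it is `1` at `w` and `0` at `w'`.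
`Z = 1 - ∏_{w' ∈ F, w' ≠ w} u w'`.

PROOF of `open_at`.  Let `y₀ j = eval w (B j)`.  Let `Z` be separating for the fibre over `y₀`
(`finite_fiber`) and let `μ` be as in `exists_lift` for `Z`.  `U` contains an open `U₀ ∋ w`.  Let `C` be
as in `bdd_near`.  The set `L = {w' ∈ pts a | w' ∉ U₀, ∀ i, ‖w' i‖ ≤ C}` is compact
(`isClosed_pts`, bounded), and the continuous function
`w' ↦ ∑ j, ‖eval w' (B j) - y₀ j‖ + ‖eval w' Z‖` is positive on it (a zero would be a point of the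
fibre with `Z = 0`, so it would be `w ∈ U₀`), so it is `≥ δ > 0` on `L` (if `L` is empty take `δ = 1`).
`(μ.map (eval y₀)).eval 0 = 0` by `root_at` (`eval w Z = 0`), so the coefficient
`eval y (μ.coeff 0)` tends to `0` as `y → y₀` and `1 ≤ μ.natDegree` (`μ` is monic and a specialisation
has a root).  So for `y` near `y₀`: `∑ j, ‖y j - y₀ j‖ < δ / 2`, the bound of `bdd_near` holds and
`‖eval y (μ.coeff 0)‖ < (δ / 2) ^ μ.natDegree`.  By `exists_small_root` there is a root `T` of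
`μ.map (eval y)` (monic of the same degree) with `‖T‖ < δ / 2`, and by `exists_lift` a point
`w' ∈ pts a` with `eval w' (B j) = y j`, `eval w' Z = T`.  It is not in `L`, so it is in `U₀`.
-/

open MvPolynomial Topology

noncomputable section

namespace Pool.Agent.H13.SM

variable {ι K : Type} [Field K] [Algebra ℂ K]

private theorem pow_le_prod_norm {ε : ℝ} (hε : 0 < ε) (s : Multiset ℂ) :
    (∀ t ∈ s, ε ≤ ‖t‖) → ε ^ s.card ≤ ‖s.prod‖ := by
  induction s using Multiset.induction_on with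
  | empty => intro _; simp
  | cons a s ih =>
    intro h
    rw [Multiset.card_cons, Multiset.prod_cons, norm_mul, pow_succ']
    exact mul_le_mul (h a (Multiset.mem_cons_self a s))
      (ih fun t ht => h t (Multiset.mem_cons_of_mem ht)) (by positivity) (norm_nonneg _)

theorem exists_small_root {p : Polynomial ℂ} (hp : p.Monic) (hd : 1 ≤ p.natDegree) {ε : ℝ}
    (hε : 0 < ε) (h : ‖p.coeff 0‖ < ε ^ p.natDegree) : ∃ t : ℂ, p.eval t = 0 ∧ ‖t‖ < ε := by
  have _ := hd
  by_contra hcon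
  push Not at hcon
  have hs : p.Splits := IsAlgClosed.splits p
  have h1 : p.coeff 0 = (-1) ^ p.natDegree * p.roots.prod :=
    hs.coeff_zero_eq_prod_roots_of_monic hp
  have h2 : ε ^ p.roots.card ≤ ‖p.roots.prod‖ :=
    pow_le_prod_norm hε _ fun t ht => hcon t (Polynomial.isRoot_of_mem_roots ht)
  rw [← hs.natDegree_eq_card_roots] at h2
  rw [h1, norm_mul, norm_pow, norm_neg, norm_one, one_pow, one_mul] at h
  exact absurd h2 (not_le.2 h)

theorem exists_separating {F : Set (ι → ℂ)} (hF : F.Finite) (w : ι → ℂ) :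
    ∃ Z : MvPolynomial ι ℂ, eval w Z = 0 ∧ ∀ w' ∈ F, w' ≠ w → eval w' Z ≠ 0 := by
  classical
  have h1 : ∀ w' : ι → ℂ, w' ≠ w → ∃ Y : MvPolynomial ι ℂ, eval w Y = 1 ∧ eval w' Y = 0 := by
    intro w' hne
    obtain ⟨i, hi⟩ := Function.ne_iff.1 hne
    refine ⟨C (w i - w' i)⁻¹ * (X i - C (w' i)), ?_, ?_⟩
    · have h3 : w i - w' i ≠ 0 := sub_ne_zero.2 (Ne.symm hi)
      simp [h3]
    · simp
  choose! u hu1 hu0 using h1
  refine ⟨1 - ∏ w' ∈ hF.toFinset.filter (fun w' => w' ≠ w), u w', ?_, ?_⟩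
  · rw [map_sub, map_one, map_prod, Finset.prod_eq_one, sub_self]
    intro w' hw'
    exact hu1 w' (Finset.mem_filter.1 hw').2
  · intro w' hw' hne
    rw [map_sub, map_one, map_prod,
      Finset.prod_eq_zero (Finset.mem_filter.2 ⟨hF.mem_toFinset.2 hw', hne⟩) (hu0 w' hne), sub_zero]
    exact one_ne_zero

/-- The finite projection `w ↦ (B j)(w)` is open. -/
theorem open_at [Finite ι] {a : ι → K} {n : ℕ} {b : Fin n → K} (hb : AlgebraicIndependent ℂ b)
    {B : Fin n → MvPolynomial ι ℂ} (hB : ∀ j, aeval a (B j) = b j)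
    (hint : ∀ i, IsIntegral (Algebra.adjoin ℂ (Set.range b)) (a i)) {w : ι → ℂ} (hw : w ∈ pts a)
    {U : Set (ι → ℂ)} (hU : U ∈ 𝓝 w) :
    (fun w' j => eval w' (B j)) '' (pts a ∩ U) ∈ 𝓝 (fun j => eval w (B j)) := by
  have hF := finite_fiber hB hint (fun j => eval w (B j))
  obtain ⟨Z, hZw, hZ⟩ := exists_separating hF w
  obtain ⟨μ, hμm, hμr, hμl⟩ := exists_lift hb hB hint Z
  obtain ⟨U₀, hU₀U, hU₀o, hwU₀⟩ := mem_nhds_iff.1 hU
  obtain ⟨C, hC⟩ := bdd_near hB hint (fun j => eval w (B j))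
  have hroot := root_at hB hμr hw
  rw [hZw] at hroot
  have hdeg : 1 ≤ μ.natDegree := by
    by_contra hlt
    have h0 : μ = 1 := by
      rw [Nat.not_le, Nat.lt_one_iff] at hlt
      exact Polynomial.eq_one_of_monic_natDegree_zero hμm hlt
    rw [h0, Polynomial.map_one, Polynomial.eval_one] at hroot
    exact one_ne_zero hroot
  -- the compact set of the points outside `U₀`
  have hLc : IsCompact ({w' : ι → ℂ | w' ∈ pts a ∧ w' ∉ U₀ ∧ ∀ i, ‖w' i‖ ≤ C}) := by
    have hK : IsCompact (Set.pi Set.univ fun _ : ι => Metric.closedBall (0 : ℂ) C) :=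
      isCompact_univ_pi fun _ => isCompact_closedBall _ _
    refine hK.of_isClosed_subset ?_ ?_
    · have e1 : {w' : ι → ℂ | w' ∈ pts a ∧ w' ∉ U₀ ∧ ∀ i, ‖w' i‖ ≤ C} =
          pts a ∩ (U₀ᶜ ∩ ⋂ i, {w' : ι → ℂ | ‖w' i‖ ≤ C}) := by
        ext w'
        simp only [Set.mem_ofPred_eq, Set.mem_inter_iff, Set.mem_compl_iff, Set.mem_iInter]
      rw [e1]
      refine (isClosed_pts a).inter (hU₀o.isClosed_compl.inter (isClosed_iInter fun i => ?_))
      exact isClosed_le ((continuous_apply i).norm) continuous_const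
    · intro w' hw' i _
      rw [mem_closedBall_zero_iff]
      exact hw'.2.2 i
  have hgc : Continuous fun w' : ι → ℂ =>
      (∑ j, ‖eval w' (B j) - eval w (B j)‖) + ‖eval w' Z‖ :=
    (continuous_finsetSum _ fun j _ =>
      ((MvPolynomial.continuous_eval (B j)).sub continuous_const).norm).add
      (MvPolynomial.continuous_eval Z).norm
  have hδ : ∃ δ : ℝ, 0 < δ ∧ ∀ w' ∈ {w' : ι → ℂ | w' ∈ pts a ∧ w' ∉ U₀ ∧ ∀ i, ‖w' i‖ ≤ C},
      δ ≤ (∑ j, ‖eval w' (B j) - eval w (B j)‖) + ‖eval w' Z‖ := by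
    rcases Set.eq_empty_or_nonempty
      {w' : ι → ℂ | w' ∈ pts a ∧ w' ∉ U₀ ∧ ∀ i, ‖w' i‖ ≤ C} with he | hne
    · refine ⟨1, one_pos, fun w' hw' => ?_⟩
      rw [he] at hw'
      exact absurd hw' (Set.notMem_empty _)
    · obtain ⟨w₁, hw₁, hmin⟩ := hLc.exists_isMinOn hne hgc.continuousOn
      refine ⟨_, ?_, fun w' hw' => hmin hw'⟩
      by_contra hle
      have hs0 : 0 ≤ ∑ j, ‖eval w₁ (B j) - eval w (B j)‖ :=
        Finset.sum_nonneg fun _ _ => norm_nonneg _
      have hz0 : 0 ≤ ‖eval w₁ Z‖ := norm_nonneg _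
      have hs : ∑ j, ‖eval w₁ (B j) - eval w (B j)‖ = 0 := by linarith [not_lt.1 hle]
      have hz : ‖eval w₁ Z‖ = 0 := by linarith [not_lt.1 hle]
      rw [Finset.sum_eq_zero_iff_of_nonneg fun _ _ => norm_nonneg _] at hs
      have hfib : ∀ j, eval w₁ (B j) = eval w (B j) := fun j =>
        sub_eq_zero.1 (norm_eq_zero.1 (hs j (Finset.mem_univ j)))
      have hww : w₁ = w := by
        by_contra hne1
        exact hZ w₁ ⟨hw₁.1, hfib⟩ hne1 (norm_eq_zero.1 hz)
      exact hw₁.2.1 (hww ▸ hwU₀)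
  obtain ⟨δ, hδ0, hδL⟩ := hδ
  have hev2 : ∀ᶠ y : Fin n → ℂ in 𝓝 (fun j => eval w (B j)),
      ∑ j, ‖y j - eval w (B j)‖ < δ / 2 := by
    have hc : Continuous fun y : Fin n → ℂ => ∑ j, ‖y j - eval w (B j)‖ :=
      continuous_finsetSum _ fun j _ => ((continuous_apply j).sub continuous_const).norm
    have h0 : ∑ j, ‖(fun j => eval w (B j)) j - eval w (B j)‖ < δ / 2 := by
      have : ∑ j, ‖(fun j => eval w (B j)) j - eval w (B j)‖ = 0 :=
        Finset.sum_eq_zero fun j _ => by rw [sub_self, norm_zero]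
      rw [this]
      linarith
    exact hc.continuousAt.eventually (gt_mem_nhds h0)
  have hev3 : ∀ᶠ y : Fin n → ℂ in 𝓝 (fun j => eval w (B j)),
      ‖eval y (μ.coeff 0)‖ < (δ / 2) ^ μ.natDegree := by
    have hc : Continuous fun y : Fin n → ℂ => ‖eval y (μ.coeff 0)‖ :=
      (MvPolynomial.continuous_eval (μ.coeff 0)).norm
    have h0 : ‖eval (fun j => eval w (B j)) (μ.coeff 0)‖ < (δ / 2) ^ μ.natDegree := by
      have h1 : eval (fun j => eval w (B j)) (μ.coeff 0) = 0 := by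
        rw [← Polynomial.coeff_map, Polynomial.coeff_zero_eq_eval_zero]
        exact hroot
      rw [h1, norm_zero]
      positivity
    exact hc.continuousAt.eventually (gt_mem_nhds h0)
  filter_upwards [hC, hev2, hev3] with y hy1 hy2 hy3
  have hnd : (μ.map (eval y)).natDegree = μ.natDegree := hμm.natDegree_map _
  obtain ⟨T, hT0, hTs⟩ := exists_small_root (hμm.map (eval y)) (by rw [hnd]; exact hdeg)
    (half_pos hδ0) (by rw [hnd, Polynomial.coeff_map]; exact hy3)
  obtain ⟨w', hw'a, hw'B, hw'Z⟩ := hμl y T hT0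
  have hin : w' ∈ U₀ := by
    by_contra hout
    have h1 := hδL w' ⟨hw'a, hout, hy1 w' hw'a hw'B⟩
    have h2 : ∑ j, ‖eval w' (B j) - eval w (B j)‖ = ∑ j, ‖y j - eval w (B j)‖ :=
      Finset.sum_congr rfl fun j _ => by rw [hw'B j]
    rw [h2, hw'Z] at h1
    linarith
  exact ⟨w', ⟨hw'a, hU₀U hin⟩, funext fun j => hw'B j⟩

end Pool.Agent.H13.SM
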