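import Mathlib

/-!
# The complex points of an affine variety with generic point `a`

`a : ι → K` generates the field `K` over `ℂ`.  The affine variety is the spectrum of
`A = Algebra.adjoin ℂ (Set.range a)`; its points are the `w : ι → ℂ` at which all polynomials which
vanish at `a` vanish.

PROOF of `isClosed_pts`.  Intersection of the closed sets `eval w Q = 0`
(`MvPolynomial.continuous_eval`).

PROOF of `pts_of_algHom`.  `eval (fun i => φ ⟨a i, _⟩) Q = φ ⟨aeval a Q, _⟩` (both sides are algebra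
homs of `Q`, or induction on `Q`), and `φ 0 = 0`.

PROOF of `root_at`.  Let `M : Polynomial (MvPolynomial (Fin n) ℂ) →+* MvPolynomial ι ℂ` be
`Polynomial.eval₂RingHom (aeval B).toRingHom Z`.  Then `aeval a (M p) = (p.map (aeval b)).eval (aeval a
Z)` since `aeval a (B j) = b j`, and `eval w (M p) = (p.map (eval (fun j => eval w (B j)))).eval
(eval w Z)` (both by `Polynomial.hom_eval₂` and `MvPolynomial.comp_aeval` / `ringHom_ext`).
-/

open MvPolynomial

noncomputable section

namespace Pool.Agent.H13.SM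

variable {ι K : Type} [Field K] [Algebra ℂ K]

/-- The complex points of the affine variety with generic point `a`. -/
def pts (a : ι → K) : Set (ι → ℂ) :=
  {w | ∀ Q : MvPolynomial ι ℂ, aeval a Q = 0 → eval w Q = 0}

theorem isClosed_pts [Finite ι] (a : ι → K) : IsClosed (pts a) := by
  have h : pts a = ⋂ Q ∈ {Q : MvPolynomial ι ℂ | aeval a Q = 0}, {w : ι → ℂ | eval w Q = 0} := by
    ext w
    simp only [pts, Set.mem_ofPred_eq, Set.mem_iInter]
  rw [h]
  exact isClosed_biInter fun Q _ => isClosed_eq (MvPolynomial.continuous_eval Q) continuous_const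

theorem aeval_mem_adjoin (a : ι → K) (Q : MvPolynomial ι ℂ) :
    aeval a Q ∈ Algebra.adjoin ℂ (Set.range a) := by
  rw [Algebra.adjoin_range_eq_range_aeval]
  exact ⟨Q, rfl⟩

/-- An algebra hom from the ring of functions to `ℂ` is the evaluation at a point. -/
theorem exists_pt_of_algHom (a : ι → K) (φ : Algebra.adjoin ℂ (Set.range a) →ₐ[ℂ] ℂ) :
    ∃ w ∈ pts a, ∀ Q : MvPolynomial ι ℂ, eval w Q = φ ⟨aeval a Q, aeval_mem_adjoin a Q⟩ := by
  have key : ∀ Q : MvPolynomial ι ℂ,
      eval (fun i => φ ⟨a i, Algebra.subset_adjoin (Set.mem_range_self i)⟩) Q =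
        φ ⟨aeval a Q, aeval_mem_adjoin a Q⟩ := by
    intro Q
    have h1 := MvPolynomial.comp_aeval_apply
      (fun i => (⟨a i, Algebra.subset_adjoin (Set.mem_range_self i)⟩ : Algebra.adjoin ℂ (Set.range a)))
      φ Q
    have h2 := MvPolynomial.comp_aeval_apply
      (fun i => (⟨a i, Algebra.subset_adjoin (Set.mem_range_self i)⟩ : Algebra.adjoin ℂ (Set.range a)))
      (Algebra.adjoin ℂ (Set.range a)).val Q
    have h3 : aeval (fun i => (⟨a i, Algebra.subset_adjoin (Set.mem_range_self i)⟩ :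
        Algebra.adjoin ℂ (Set.range a))) Q = ⟨aeval a Q, aeval_mem_adjoin a Q⟩ := by
      apply Subtype.ext
      exact h2
    rw [← h3, h1, MvPolynomial.aeval_eq_eval]
  refine ⟨fun i => φ ⟨a i, Algebra.subset_adjoin (Set.mem_range_self i)⟩, ?_, key⟩
  intro Q hQ
  rw [key Q]
  have h4 : (⟨aeval a Q, aeval_mem_adjoin a Q⟩ : Algebra.adjoin ℂ (Set.range a)) = 0 :=
    Subtype.ext hQ
  rw [h4, map_zero]

/-- If `Z` is a root of `p` on the variety, with coefficients functions of the `b j = aeval a (B j)`,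
then this holds at each point. -/
theorem root_at {n : ℕ} {a : ι → K} {b : Fin n → K} {B : Fin n → MvPolynomial ι ℂ}
    (hB : ∀ j, aeval a (B j) = b j) {Z : MvPolynomial ι ℂ}
    {p : Polynomial (MvPolynomial (Fin n) ℂ)}
    (hp : (p.map (aeval b : MvPolynomial (Fin n) ℂ →ₐ[ℂ] K).toRingHom).eval (aeval a Z) = 0)
    {w : ι → ℂ} (hw : w ∈ pts a) :
    (p.map (eval fun j => eval w (B j))).eval (eval w Z) = 0 := by
  have h1 : aeval a (p.eval₂ (aeval B : MvPolynomial (Fin n) ℂ →ₐ[ℂ] MvPolynomial ι ℂ).toRingHom Z)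
      = 0 := by
    have e1 := Polynomial.hom_eval₂ p
      (aeval B : MvPolynomial (Fin n) ℂ →ₐ[ℂ] MvPolynomial ι ℂ).toRingHom
      (aeval a : MvPolynomial ι ℂ →ₐ[ℂ] K).toRingHom Z
    have e2 : (aeval a : MvPolynomial ι ℂ →ₐ[ℂ] K).toRingHom.comp
        (aeval B : MvPolynomial (Fin n) ℂ →ₐ[ℂ] MvPolynomial ι ℂ).toRingHom =
        (aeval b : MvPolynomial (Fin n) ℂ →ₐ[ℂ] K).toRingHom := by
      have e3 : (aeval a : MvPolynomial ι ℂ →ₐ[ℂ] K).comp
          (aeval B : MvPolynomial (Fin n) ℂ →ₐ[ℂ] MvPolynomial ι ℂ) = aeval b := by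
        apply MvPolynomial.algHom_ext
        intro j
        rw [AlgHom.comp_apply, aeval_X, aeval_X]
        exact hB j
      rw [← e3]
      rfl
    rw [e2] at e1
    rw [Polynomial.eval_map] at hp
    exact e1.trans hp
  have h2 := hw _ h1
  have e4 := Polynomial.hom_eval₂ p
    (aeval B : MvPolynomial (Fin n) ℂ →ₐ[ℂ] MvPolynomial ι ℂ).toRingHom (eval w) Z
  have e5 : (eval w).comp (aeval B : MvPolynomial (Fin n) ℂ →ₐ[ℂ] MvPolynomial ι ℂ).toRingHom =
      eval fun j => eval w (B j) := by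
    apply MvPolynomial.ringHom_ext
    · intro r
      simp
    · intro j
      simp
  rw [e5] at e4
  rw [Polynomial.eval_map, ← e4]
  exact h2

end Pool.Agent.H13.SM
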